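import Pool.Agent.Run7.h909.T3.Ext
import Pool.Agent.Run7.h192.T3.Fin
import Pool.Agent.Run7.h579.T3.FINAL
import Pool.Agent.Run7.h909.GT.Fin

set_option autoImplicit false

/-!
# Project T3: the assembly
-/

namespace Run7.h909.T3

open SimpleGraph Run7.h909.TD Run7.h909.GT
open Pool.Agent.Y110.FJ (ClosedE)
open Pool.Agent.R684.FP (FbC)
open Run7.h579.T3 (Tri2 ring_mem3 t_FINAL poly_mem3)

variable {C : ∀ (G : Type) [Group G], Prop}

theorem tri2 (hC : ClosedE C) (hF : FbC C) (hcat : CatC C) : Tri2 C := by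
  intro G V _ _ T F τ h1 h2 h3 h4 h5 h6
  exact Run7.h192.T3.t_MAIN2 t_TREE hC hF hcat h1 h2 h3 h4 h5 h6

/-- actions that permute the types -/
theorem tri_perm (hC : ClosedE C) (hM : Tri2 C) {G V : Type} [Group G] [MulAction G V]
    {T : SimpleGraph V} {F : Set (ℤ → V)} {τ : V → ZMod 3} (h1 : Tri T F) (h2 : SC T F)
    (h3 : Ac G T F) (hp : ∀ g : G, ∃ σ : ZMod 3 → ZMod 3, ∀ x : V, τ (g • x) = σ (τ x))
    (h5 : ∀ x y, T.Adj x y → τ x ≠ τ y)
    (h6 : ∀ x : V, ∃ (P : Type) (_ : Group P) (f : G →* P), C P ∧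
      ∀ g : G, g • x = x → f g = 1 → g = 1) : C G := by
  classical
  let H : Subgroup G :=
    { carrier := {g | ∀ x : V, τ (g • x) = τ x}
      one_mem' := fun x => by rw [one_smul]
      mul_mem' := fun {a b} ha hb x => by rw [mul_smul, ha, hb]
      inv_mem' := fun {a} ha x => by
        have := ha (a⁻¹ • x)
        rw [smul_inv_smul] at this
        exact this.symm }
  have hmem : ∀ g : G, g ∈ H ↔ ∀ x : V, τ (g • x) = τ x := fun g => Iff.rfl
  choose σ hσ using hp
  have hinj : ∀ a b : G, σ a⁻¹ = σ b⁻¹ → a⁻¹ * b ∈ H := by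
    intro a b hab
    rw [hmem]
    intro x
    rw [mul_smul, hσ a⁻¹, hab, ← hσ b⁻¹, inv_smul_smul]
  have hfin : Finite (G ⧸ H) := by
    refine Finite.of_injective (fun a : G ⧸ H => σ (a.out)⁻¹) ?_
    intro a b hab
    have h7 := hinj _ _ hab
    rw [← QuotientGroup.eq] at h7
    rw [← QuotientGroup.out_eq' a, ← QuotientGroup.out_eq' b]
    exact h7
  have hH : C H := by
    refine hM H V T F τ h1 h2 ⟨fun g x y e => h3.adj (g : G) x y e,
      fun g φ e => h3.face (g : G) φ e⟩ (fun g x => g.2 x) h5 fun x => ?_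
    obtain ⟨P, iP, f, hP, hf⟩ := h6 x
    exact ⟨P, iP, f.comp H.subtype, hP, fun g hg h8 => Subtype.ext (hf (g : G) hg h8)⟩
  exact hC.base.finiteIndex G H (Subgroup.finiteIndex_of_finite_quotient) hH

/-- representations over rings with a degree function -/
theorem rep3 (hM : Tri2 C) {R G : Type} [CommRing R] [Nontrivial R] [Group G]
    {deg : R → WithBot ℤ} (h : IsDeg deg) (ρ : G →* GL (Fin 3) R)
    (hdet : ∀ g, deg (ρ g : Matrix (Fin 3) (Fin 3) R).det = 0)
    (hP : ∀ n : ℕ, ∃ (P : Type) (_ : Group P) (f : G →* P), C P ∧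
      ∀ g, (∀ i j, deg (ρ g i j) ≤ n) → f g = 1 → g = 1) : C G := by
  have hdom := Pool.Agent.Run7.h390.BD.isDom h
  obtain ⟨d, hd, hda⟩ := Pool.Agent.Run7.h390.BD.frac_deg h
  obtain ⟨V, act, T, F, τ, hT, hS, hAc, hadj, hty, hfix⟩ :=
    Pool.Agent.Run7.h431.T3.t_BLD hd
  let ρ' : G →* GL (Fin 3) (FractionRing R) :=
    (Matrix.GeneralLinearGroup.map (algebraMap R (FractionRing R))).comp ρ
  let act' : MulAction G V := MulAction.compHom V ρ'
  have hent : ∀ (g : G) (i j : Fin 3),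
      (ρ' g : Matrix (Fin 3) (Fin 3) (FractionRing R)) i j =
        algebraMap R (FractionRing R) (ρ g i j) := fun _ _ _ => rfl
  have hdet' : ∀ g : G,
      d (ρ' g : Matrix (Fin 3) (Fin 3) (FractionRing R)).det = 0 := by
    intro g
    have h1 : (ρ' g : Matrix (Fin 3) (Fin 3) (FractionRing R)).det =
        algebraMap R (FractionRing R) (ρ g : Matrix (Fin 3) (Fin 3) R).det := by
      have h2 : (ρ' g : Matrix (Fin 3) (Fin 3) (FractionRing R)) =
        (algebraMap R (FractionRing R)).mapMatrix (ρ g : Matrix (Fin 3) (Fin 3) R) := rfl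
      rw [h2, RingHom.map_det]
    rw [h1, hda, hdet]
  refine hM G V T F τ hT hS ⟨fun g x y e => hAc.adj (ρ' g) x y e,
    fun g φ e => hAc.face (ρ' g) φ e⟩ (fun g x => hty (ρ' g) (hdet' g) x) hadj fun x => ?_
  obtain ⟨n, hnx⟩ := hfix x
  obtain ⟨P, iP, f, hPC, hf⟩ := hP n
  refine ⟨P, iP, f, hPC, fun g hg hg1 => hf g (fun i j => ?_) hg1⟩
  have h3 := hnx (ρ' g) (hdet' g) hg i j
  rw [hent, hda] at h3
  exact h3

/-- **noetherian domains with finite dimensional pieces** -/
theorem fin_mem3 (hC : ClosedE C) (hsol : ∀ (S : Type) [Group S], Group.IsSolvable S → C S)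
    (hM : Tri2 C) (K : Type) {A : Type} [Field K] [CommRing A] [IsDomain A] [IsNoetherianRing A]
    [Algebra K A]
    {deg : A → WithBot ℤ} (h : IsDeg deg) (h0 : ∀ x, x ≠ 0 → 0 ≤ deg x)
    (hfd : ∀ n : ℕ, ∃ V : Submodule K A, FiniteDimensional K V ∧ ∀ x, deg x ≤ n → x ∈ V)
    (J : Ideal A) (hJ1 : J ≠ ⊤) (hJ : C (GL (Fin 3) (A ⧸ J))) : C (GL (Fin 3) A) := by
  refine ring_mem3 hC hsol hM h h0 J hJ fun n => ?_
  obtain ⟨V, hV, hVn⟩ := hfd n
  obtain ⟨F, hF⟩ : ∃ F : ℕ →o (Submodule K V)ᵒᵈ, ∀ k, F k = OrderDual.toDual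
      (((J ^ k).restrictScalars K).comap V.subtype) :=
    ⟨⟨fun k => OrderDual.toDual (((J ^ k).restrictScalars K).comap V.subtype), fun a b hab => by
      show ((J ^ b).restrictScalars K).comap V.subtype ≤ ((J ^ a).restrictScalars K).comap V.subtype
      intro x hx
      exact Ideal.pow_le_pow_right hab hx⟩, fun k => rfl⟩
  obtain ⟨k, hk⟩ := IsArtinian.monotone_stabilizes F
  refine ⟨k, fun x hx hd => ?_⟩
  have h1 : ∀ m, x ∈ J ^ m := by
    intro m
    by_cases hm : k ≤ m
    · have h2 := hk m hm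
      rw [hF, hF] at h2
      have h3 : (⟨x, hVn x hd⟩ : V) ∈ ((J ^ k).restrictScalars K).comap V.subtype := hx
      have h4 : ((J ^ k).restrictScalars K).comap V.subtype =
        ((J ^ m).restrictScalars K).comap V.subtype := congrArg OrderDual.ofDual h2
      rw [h4] at h3
      exact h3
    · exact Ideal.pow_le_pow_right (not_le.1 hm).le hx
  have h2 : x ∈ (⨅ i : ℕ, J ^ i) := by
    rw [Ideal.mem_iInf]
    exact h1
  rw [Ideal.iInf_pow_eq_bot_of_isDomain J hJ1, Ideal.mem_bot] at h2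
  exact h2

/-- the group `GL_3` of a field which is algebraic over a finite field -/
theorem algfin_mem3 (hC : ClosedE C) (K : Type) [Field K] (p : ℕ) [Fact p.Prime]
    [Algebra (ZMod p) K]
    [Algebra.IsAlgebraic (ZMod p) K] : C (GL (Fin 3) K) := by
  classical
  refine Pool.Agent.Y430.SS.t_lf C hC.base _ fun E => ?_
  obtain ⟨S, hS⟩ : ∃ S : Set K, S = ⋃ g ∈ E, Set.range fun ij : Fin 3 × Fin 3 => g ij.1 ij.2 :=
    ⟨_, rfl⟩
  have hSf : S.Finite := by
    rw [hS]
    exact E.finite_toSet.biUnion fun g _ => Set.finite_range _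
  have : Finite S := hSf
  have hfd : FiniteDimensional (ZMod p) (IntermediateField.adjoin (ZMod p) S) :=
    IntermediateField.finiteDimensional_adjoin fun x _ => Algebra.IsIntegral.isIntegral x
  have hfin : Finite (IntermediateField.adjoin (ZMod p) S) := Module.finite_of_finite (ZMod p)
  obtain ⟨L, hL⟩ : ∃ L : IntermediateField (ZMod p) K, L = IntermediateField.adjoin (ZMod p) S :=
    ⟨_, rfl⟩
  rw [← hL] at hfin
  have hle : Subgroup.closure (E : Set (GL (Fin 3) K)) ≤
      (Matrix.GeneralLinearGroup.map (n := Fin 3) (algebraMap L K)).range := by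
    rw [Subgroup.closure_le]
    intro g hg
    have hent : ∀ i j, g i j ∈ L := by
      intro i j
      rw [hL]
      apply IntermediateField.subset_adjoin
      rw [hS]
      exact Set.mem_biUnion hg ⟨(i, j), rfl⟩
    obtain ⟨M, hM⟩ : ∃ M : Matrix (Fin 3) (Fin 3) L, ∀ i j, algebraMap L K (M i j) = g i j :=
      ⟨Matrix.of fun i j => ⟨g i j, hent i j⟩, fun i j => rfl⟩
    have hdet : M.det ≠ 0 := by
      intro h0
      have h1 : algebraMap L K M.det = (g : Matrix (Fin 3) (Fin 3) K).det := by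
        rw [RingHom.map_det]
        congr 1
        ext i j
        exact hM i j
      rw [h0, map_zero] at h1
      exact ((Matrix.isUnit_iff_isUnit_det _).1 g.isUnit).ne_zero h1.symm
    refine ⟨Matrix.GeneralLinearGroup.mkOfDetNeZero M hdet, ?_⟩
    ext i j
    exact hM i j
  have hfinG : Finite (GL (Fin 3) L) := inferInstanceAs (Finite (Matrix (Fin 3) (Fin 3) L)ˣ)
  have hfr : Finite (Matrix.GeneralLinearGroup.map (n := Fin 3) (algebraMap L K)).range :=
    Set.finite_range _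
  exact Finite.of_injective _ (Subgroup.inclusion_injective hle)

/-- **affine domains over algebraic extensions of finite fields** -/
theorem affine_algfin_mem3 (hC : ClosedE C)
    (hsol : ∀ (S : Type) [Group S], Group.IsSolvable S → C S) (hM : Tri2 C)
    (K : Type) {A : Type} [Field K] (p : ℕ) [Fact p.Prime] [Algebra (ZMod p) K]
    [Algebra.IsAlgebraic (ZMod p) K] [CommRing A] [IsDomain A] [Algebra K A]
    [Algebra.FiniteType K A] {deg : A → WithBot ℤ} (h : IsDeg deg) (h0 : ∀ x, x ≠ 0 → 0 ≤ deg x)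
    (hfd : ∀ n : ℕ, ∃ V : Submodule K A, FiniteDimensional K V ∧ ∀ x, deg x ≤ n → x ∈ V) :
    C (GL (Fin 3) A) := by
  have hn : IsNoetherianRing A := Algebra.FiniteType.isNoetherianRing K A
  obtain ⟨J, hJ⟩ := Ideal.exists_maximal A
  let _ : Field (A ⧸ J) := Ideal.Quotient.field J
  have hft : Algebra.FiniteType K (A ⧸ J) :=
    Algebra.FiniteType.of_surjective (Ideal.Quotient.mkₐ K J) (Ideal.Quotient.mkₐ_surjective K J)
  have hfin : Module.Finite K (A ⧸ J) := finite_of_finite_type_of_isJacobsonRing K (A ⧸ J)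
  let _ : Algebra (ZMod p) (A ⧸ J) := ((algebraMap K (A ⧸ J)).comp (algebraMap (ZMod p) K)).toAlgebra
  have : IsScalarTower (ZMod p) K (A ⧸ J) := IsScalarTower.of_algebraMap_eq fun x => rfl
  have : Algebra.IsAlgebraic (ZMod p) (A ⧸ J) := Algebra.IsAlgebraic.trans (ZMod p) K (A ⧸ J)
  exact fin_mem3 hC hsol hM K h h0 hfd J hJ.ne_top (algfin_mem3 hC (A ⧸ J) p)

end Run7.h909.T3
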