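import Pool.Agent.Run7.h909.T3.Flip

set_option autoImplicit false

/-!
# Reduced paths modulo flips
-/

namespace Run7.h909.T3

universe u

variable {V : Type u} (S : TrS V)

/-- Nonempty reduced paths. -/
def RedP : Type u := {P : List V // Red S P ∧ P ≠ []}

/-- Flip equivalence on reduced paths. -/
def redSetoid : Setoid (RedP S) where
  r P Q := Eqv S P.1 Q.1
  iseqv := ⟨fun _ => Eqv.refl _, fun h => h.symm, fun h h' => h.trans h'⟩

/-- classes of paths -/
def Om : Type u := Quotient (redSetoid S)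

variable {S}

/-- The class of a reduced path. -/
def Om.mk (P : List V) (h : Red S P ∧ P ≠ []) : Om S := Quotient.mk (redSetoid S) ⟨P, h⟩

theorem Om.sound {P Q : List V} {hP : Red S P ∧ P ≠ []} {hQ : Red S Q ∧ Q ≠ []}
    (h : Eqv S P Q) : Om.mk P hP = Om.mk Q hQ := Quotient.sound h

theorem Om.exact {P Q : List V} {hP : Red S P ∧ P ≠ []} {hQ : Red S Q ∧ Q ≠ []}
    (h : Om.mk P hP = Om.mk Q hQ) : Eqv S P Q := Quotient.exact h

/-- The endpoint. -/
def Om.fin (c : Om S) : V :=
  Quotient.lift (s := redSetoid S) (fun P => P.1.head P.2.2) (by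
    intro P Q h
    have h' : Eqv S P.1 Q.1 := h
    have := h'.head
    rw [List.head?_eq_some_head P.2.2, List.head?_eq_some_head Q.2.2] at this
    exact Option.some.inj this) c

@[simp] theorem Om.fin_mk (x : V) (P : List V) (h : Red S (x :: P) ∧ x :: P ≠ []) :
    (Om.mk (x :: P) h).fin = x := rfl

/-- the length -/
def Om.len (c : Om S) : ℕ :=
  Quotient.lift (s := redSetoid S) (fun P => P.1.length) (by
    intro P Q h
    have h' : Eqv S P.1 Q.1 := h
    exact h'.length) c

@[simp] theorem Om.len_mk (P : List V) (h : Red S P ∧ P ≠ []) : (Om.mk P h).len = P.length := rfl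

theorem Om.ind {p : Om S → Prop} (h : ∀ x P (hP : Red S (x :: P) ∧ x :: P ≠ []),
    p (Om.mk (x :: P) hP)) (c : Om S) : p c := by
  induction c using Quotient.inductionOn with
  | h P =>
    obtain ⟨P, h1, h2⟩ := P
    cases P with
    | nil => exact absurd rfl h2
    | cons x P => exact h x P ⟨h1, h2⟩

/-- `x` is below the end of `P` -/
def Desc (S : TrS V) (P : List V) (x : V) : Prop := ∃ y R, Eqv S P (y :: x :: R)

/-- `x` is beside the end of `P` -/
def Hor (S : TrS V) (P : List V) (x : V) : Prop :=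
  ∃ z R y, Eqv S P (y :: z :: R) ∧ S.tg x y z

theorem hor_red' {x y z : V} {P R : List V} (hP : Red S P) (hd : ¬ Desc S P x)
    (h : Eqv S P (y :: z :: R)) (ht : S.tg x y z) : Red S (x :: z :: R) :=
  hor_red (hP.of_eqv h) ht fun ⟨R', hR'⟩ => hd ⟨y, R', h.trans hR'⟩

open Classical in
/-- One step on representatives. -/
noncomputable def stepL (x : V) (P : RedP S) : Om S :=
  if h : Desc S P.1 x then
    Om.mk (x :: h.choose_spec.choose)
      ⟨(P.2.1.of_eqv h.choose_spec.choose_spec).tail, by simp⟩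
  else if h' : Hor S P.1 x then
    Om.mk (x :: h'.choose :: h'.choose_spec.choose)
      ⟨hor_red' P.2.1 h h'.choose_spec.choose_spec.choose_spec.1
        h'.choose_spec.choose_spec.choose_spec.2, by simp⟩
  else Om.mk (x :: P.1) ⟨by
    obtain ⟨P, h1, h2⟩ := P
    cases P with
    | nil => exact absurd rfl h2
    | cons y P =>
      by_contra hn
      rcases dh h1 hn with ⟨R, hR⟩ | ⟨z, R, hR, ht⟩
      · exact h ⟨y, R, hR⟩
      · exact h' ⟨z, R, y, hR, ht⟩, by simp⟩

theorem Eqv.cancel' {x x' y : V} {P Q : List V} (h : Eqv S (x :: y :: P) (x' :: y :: Q)) :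
    Eqv S (y :: P) (y :: Q) := by
  have h1 := h.head_eq
  subst h1
  exact h.cancel

theorem stepL_desc {x y : V} {R : List V} {P : RedP S} (h : Eqv S P.1 (y :: x :: R)) :
    stepL x P = Om.mk (x :: R) ⟨(P.2.1.of_eqv h).tail, by simp⟩ := by
  unfold stepL
  have hd : Desc S P.1 x := ⟨y, R, h⟩
  rw [dif_pos hd]
  apply Om.sound
  have h2 := hd.choose_spec.choose_spec
  exact (h2.symm.trans h).cancel'

/-- the vertex below both is unique -/
theorem hor_uniq {x y y' z z' : V} {R R' : List V} (h : Eqv S (y :: z :: R) (y' :: z' :: R'))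
    (h1 : S.tg x y z) (h2 : S.tg x y' z') : z = z' ∧ Eqv S (z :: R) (z' :: R') := by
  obtain rfl := h.head_eq
  rcases rho_heads h with h3 | ⟨w, R1, hs, -, -⟩
  · exact h3
  · exact (S.g3 (v := y) (a := z) (b := z') (c := x) hs.1 (S.rot h2) (TrS.s12 h1)).elim

theorem stepL_hor {x y z : V} {R : List V} {P : RedP S} (hd : ¬ Desc S P.1 x)
    (h : Eqv S P.1 (y :: z :: R)) (ht : S.tg x y z) :
    stepL x P = Om.mk (x :: z :: R) ⟨hor_red' P.2.1 hd h ht, by simp⟩ := by
  unfold stepL
  rw [dif_neg hd]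
  have h' : Hor S P.1 x := ⟨z, R, y, h, ht⟩
  rw [dif_pos h']
  apply Om.sound
  obtain ⟨h2, h3⟩ := h'.choose_spec.choose_spec.choose_spec
  exact (hor_uniq (h2.symm.trans h) h3 ht).2.cons x

theorem stepL_congr {x : V} {P Q : RedP S} (h : Eqv S P.1 Q.1) : stepL x P = stepL x Q := by
  by_cases hd : Desc S P.1 x
  · obtain ⟨y, R, hR⟩ := hd
    rw [stepL_desc hR, stepL_desc (h.symm.trans hR)]
  · have hd' : ¬ Desc S Q.1 x := fun ⟨y, R, hR⟩ => hd ⟨y, R, h.trans hR⟩
    by_cases hh : Hor S P.1 x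
    · obtain ⟨z, R, y, hR, ht⟩ := hh
      rw [stepL_hor hd hR ht, stepL_hor hd' (h.symm.trans hR) ht]
    · have hh' : ¬ Hor S Q.1 x := fun ⟨z, R, y, hR, ht⟩ => hh ⟨z, R, y, h.trans hR, ht⟩
      unfold stepL
      rw [dif_neg hd, dif_neg hd', dif_neg hh, dif_neg hh']
      exact Om.sound (h.cons x)

/-- Moving to the vertex `x`. -/
noncomputable def Om.step (x : V) (c : Om S) : Om S :=
  Quotient.lift (s := redSetoid S) (stepL x) (fun _ _ h => stepL_congr h) c

theorem step_desc {x y : V} {R : List V} (h : Red S (y :: x :: R) ∧ y :: x :: R ≠ []) :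
    (Om.mk (y :: x :: R) h).step x = Om.mk (x :: R) ⟨h.1.tail, by simp⟩ :=
  stepL_desc (P := ⟨y :: x :: R, h⟩) (Eqv.refl _)

theorem step_hor {x y z : V} {R : List V} (h : Red S (y :: z :: R) ∧ y :: z :: R ≠ [])
    (hd : ¬ Desc S (y :: z :: R) x) (ht : S.tg x y z) :
    (Om.mk (y :: z :: R) h).step x =
      Om.mk (x :: z :: R) ⟨hor_red' h.1 hd (Eqv.refl _) ht, by simp⟩ :=
  stepL_hor (P := ⟨y :: z :: R, h⟩) hd (Eqv.refl _) ht

theorem step_asc {x : V} {P : List V} (h : Red S P ∧ P ≠ []) (hx : Red S (x :: P)) :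
    (Om.mk P h).step x = Om.mk (x :: P) ⟨hx, by simp⟩ := by
  show stepL x ⟨P, h⟩ = _
  have hd : ¬ Desc S P x := by
    rintro ⟨y, R, hR⟩
    exact (hx.of_eqv (hR.cons x)).no.1 rfl
  have hh : ¬ Hor S P x := by
    rintro ⟨z, R, y, hR, ht⟩
    exact (hx.of_eqv (hR.cons x)).no.2 ht
  unfold stepL
  rw [dif_neg hd, dif_neg hh]

/-- the three cases -/
def DD (c : Om S) (x : V) : Prop := ∃ R h, c = Om.mk (c.fin :: x :: R) h

theorem not_desc {c : Om S} {x y : V} {P : List V} {h : Red S (y :: P) ∧ y :: P ≠ []}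
    (hc : c = Om.mk (y :: P) h) (hd : ¬ DD c x) : ¬ Desc S (y :: P) x := by
  rintro ⟨y', R, hR⟩
  have h1 := hR.head_eq
  subst h1
  subst hc
  exact hd ⟨R, ⟨h.1.of_eqv hR, by simp⟩, Om.sound hR⟩

theorem three (x : V) (c : Om S) :
    DD c x ∨ (¬ DD c x ∧ ∃ z R h, c = Om.mk (c.fin :: z :: R) h ∧ S.tg x c.fin z) ∨
      (¬ DD c x ∧ ∃ P h, c = Om.mk (c.fin :: P) h ∧ Red S (x :: c.fin :: P)) := by
  by_cases hd : DD c x
  · exact Or.inl hd
  · right
    induction c using Om.ind with
    | h y P hP =>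
      by_cases hr : Red S (x :: y :: P)
      · exact Or.inr ⟨hd, P, hP, rfl, hr⟩
      · rcases dh hP.1 hr with ⟨R, hR⟩ | ⟨z, R, hR, ht⟩
        · exact absurd ⟨y, R, hR⟩ (not_desc rfl hd)
        · exact Or.inl ⟨hd, z, R, ⟨hP.1.of_eqv hR, by simp⟩, Om.sound hR, ht⟩

theorem val_D {c : Om S} {x : V} {R : List V} {h} (hc : c = Om.mk (c.fin :: x :: R) h) :
    c.step x = Om.mk (x :: R) ⟨h.1.tail, by simp⟩ := by
  conv_lhs => rw [hc]
  exact step_desc h

theorem val_H {c : Om S} {x z : V} {R : List V} {h} (hc : c = Om.mk (c.fin :: z :: R) h)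
    (hd : ¬ DD c x) (ht : S.tg x c.fin z) :
    c.step x = Om.mk (x :: z :: R) ⟨hor_red' h.1 (not_desc hc hd) (Eqv.refl _) ht, by simp⟩ := by
  conv_lhs => rw [hc]
  exact step_hor h (not_desc hc hd) ht

theorem val_U {c : Om S} {x : V} {P : List V} {h} (hc : c = Om.mk (c.fin :: P) h)
    (hr : Red S (x :: c.fin :: P)) :
    c.step x = Om.mk (x :: c.fin :: P) ⟨hr, by simp⟩ := by
  conv_lhs => rw [hc]
  exact step_asc h hr

theorem fin_step (x : V) (c : Om S) : (c.step x).fin = x := by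
  rcases three x c with ⟨R, h, hc⟩ | ⟨hd, z, R, h, hc, ht⟩ | ⟨hd, P, h, hc, hr⟩
  · rw [val_D hc]; rfl
  · rw [val_H hc hd ht]; rfl
  · rw [val_U hc hr]; rfl

/-- after a step beside, the old end is beside -/
theorem nd_hor {x y z : V} {R : List V} (h : Red S (y :: z :: R)) (ht : S.tg x y z) :
    ¬ Desc S (x :: z :: R) y := by
  rintro ⟨x', R2, hR⟩
  obtain rfl := hR.head_eq
  rcases rho_heads hR with ⟨h1, -⟩ | ⟨w, R3, hs, h2, -⟩
  · exact TrS.ne2 ht h1.symm
  · exact (h.of_eqv (h2.cons y)).no.2 (TrS.s12 hs.2.1)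

theorem step_step (x : V) (c : Om S) : (c.step x).step c.fin = c := by
  rcases three x c with ⟨R, h, hc⟩ | ⟨hd, z, R, h, hc, ht⟩ | ⟨hd, P, h, hc, hr⟩
  · rw [val_D hc, step_asc _ h.1]
    exact hc.symm
  · rw [val_H hc hd ht, step_hor _ (nd_hor h.1 ht) (TrS.s12 ht)]
    exact hc.symm
  · rw [val_U hc hr, step_desc]
    exact hc.symm

theorem step_tri {x z : V} (c : Om S) (hs : S.tg c.fin x z) : (c.step x).step z = c.step z := by
  obtain ⟨y, hy⟩ : ∃ y, y = c.fin := ⟨_, rfl⟩
  rcases three x c with ⟨R, h, hc⟩ | hx2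
  · -- `x` is below
    by_cases hz : DD c z
    · obtain ⟨R', h', hc'⟩ := hz
      have he : Eqv S (c.fin :: x :: R) (c.fin :: z :: R') := Om.exact (hc.symm.trans hc')
      rcases rho_heads he with ⟨h1, -⟩ | ⟨w, R1, hw, h1, h2⟩
      · exact absurd h1 (TrS.ne2 hs)
      · have r1 : Red S (x :: w :: R1) := h.1.tail.of_eqv h1
        have r2 : Red S (z :: w :: R1) := h'.1.tail.of_eqv h2
        have e1 : c.step x = Om.mk (x :: w :: R1) ⟨r1, by simp⟩ := by
          rw [val_D hc]; exact Om.sound h1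
        have e2 : c.step z = Om.mk (z :: w :: R1) ⟨r2, by simp⟩ := by
          rw [val_D hc']; exact Om.sound h2
        have ht : S.tg z x w := TrS.s12 hw.2.1
        have hnd : ¬ Desc S (x :: w :: R1) z := nd_hor r2 (TrS.s12 ht)
        rw [e1, e2, step_hor _ hnd ht]
    · have ht : S.tg z c.fin x := TrS.rot2 hs
      rw [val_D hc, val_H hc hz ht]
      exact step_asc _ (hor_red' h.1 (not_desc hc hz) (Eqv.refl _) ht)
  · have hx : ¬ DD c x := hx2.elim (fun h => h.1) (fun h => h.1)
    rcases three z c with ⟨R, h, hc⟩ | hz2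
    · -- `z` is below, `x` is beside
      have ht : S.tg x c.fin z := TrS.s12 hs
      rw [val_H hc hx ht, val_D hc, step_desc]
    · have hz : ¬ DD c z := hz2.elim (fun h => h.1) (fun h => h.1)
      rcases hx2 with ⟨-, a, R, h, hc, ht⟩ | ⟨-, P, h, hc, hr⟩
      · rcases hz2 with ⟨-, b, R', h', hc', ht'⟩ | ⟨-, P, h', hc', hr'⟩
        · -- both beside
          exfalso
          have he : Eqv S (c.fin :: a :: R) (c.fin :: b :: R') := Om.exact (hc.symm.trans hc')
          rcases rho_heads he with ⟨rfl, -⟩ | ⟨w, R1, hw, -, -⟩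
          · exact S.g3 (v := c.fin) (a := x) (b := a) (c := z) (TrS.s12 ht)
              (TrS.s23 (TrS.s12 ht')) (TrS.s23 hs)
          · rcases S.g4 (v := c.fin) (a := x) (b := a) (c := b) (d := z) (TrS.s12 ht) hw.1
              (TrS.s23 (TrS.s12 ht')) (TrS.s23 hs) with h1 | h1
            · subst h1
              exact hx ⟨R', h', hc'⟩
            · subst h1
              exact hz ⟨R, h, hc⟩
        · -- `x` beside, `z` above
          have hza : z ≠ a := by
            rintro rfl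
            exact hz ⟨R, h, hc⟩
          have he : Eqv S (c.fin :: P) (c.fin :: a :: R) := Om.exact (hc'.symm.trans hc)
          have hfl : Eqv S (z :: c.fin :: a :: R) (z :: x :: a :: R) :=
            Eqv.single (Flip.here ⟨TrS.rot2 hs, TrS.s12 ht, hza⟩)
          have r1 : Red S (z :: x :: a :: R) := hr'.of_eqv ((he.cons z).trans hfl)
          rw [val_H hc hx ht, val_U hc' hr', step_asc _ r1]
          exact Om.sound ((he.cons z).trans hfl).symm
      · rcases hz2 with ⟨-, b, R', h', hc', ht'⟩ | ⟨-, P', h', hc', hr'⟩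
        · -- `x` above, `z` beside
          have hxb : x ≠ b := by
            rintro rfl
            exact hx ⟨R', h', hc'⟩
          have he : Eqv S (c.fin :: P) (c.fin :: b :: R') := Om.exact (hc.symm.trans hc')
          have hfl : Eqv S (x :: c.fin :: b :: R') (x :: z :: b :: R') :=
            Eqv.single (Flip.here ⟨TrS.s12 hs, TrS.s12 ht', hxb⟩)
          have he2 := (he.cons x).trans hfl
          have r1 : Red S (x :: z :: b :: R') := hr.of_eqv he2
          have e1 : c.step x = Om.mk (x :: z :: b :: R') ⟨r1, by simp⟩ := by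
            rw [val_U hc hr]; exact Om.sound he2
          rw [e1, val_H hc' hz ht', step_desc]
        · -- both above
          have he : Eqv S (c.fin :: P) (c.fin :: P') := Om.exact (hc.symm.trans hc')
          have r2 : Red S (z :: c.fin :: P) := hr'.of_eqv (he.symm.cons z)
          have hnd : ¬ Desc S (x :: c.fin :: P) z := by
            rintro ⟨x', R1, hR⟩
            obtain rfl := hR.head_eq
            rcases rho_heads hR with ⟨h1, -⟩ | ⟨w, R2, hw, h2, -⟩
            · exact TrS.ne3 hs h1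
            · exact (r2.of_eqv (h2.cons z)).no.2 (TrS.s12 hw.2.1)
          rw [val_U hc hr, step_hor _ hnd (TrS.s23 (TrS.rot2 hs)), val_U hc r2]

end Run7.h909.T3
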