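import Pool.Agent.Run7.h909.T3.Tree

set_option autoImplicit false

/-!
# The extension of cocycles from the tree, and the piece TREE
-/

namespace Run7.h909.T3

open SimpleGraph Run7.h909.TD
open Run7.h909.TT (tree_of_coc Orb QT QF)

section

variable {K : Type} [Group K] {V : Type} [MulAction K V] {T : SimpleGraph V}
    {F : Set (ℤ → V)} {τ : V → ZMod 3} {L : V → ℕ} {G : Type} [CommGroup G] {c : V → V → G}

open Classical in
/-- the values on the descending edges -/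
noncomputable def Ex (N : Nd K T F τ L) (c : V → V → G) : V → V → G :=
  N.wf.fix fun x ih => Phi K T F τ L c
    (fun y b => if h : L y < L x ∨ Hd T τ L x y then ih y h b else 1) x

open Classical in
theorem Ex_eq (N : Nd K T F τ L) (c : V → V → G) (x : V) : Ex N c x = Phi K T F τ L c
    (fun y b => if L y < L x ∨ Hd T τ L x y then Ex N c y b else 1) x := by
  unfold Ex
  rw [WellFounded.fix_eq]
  congr 1

theorem Ex1 (N : Nd K T F τ L) {x b : V} (h : Par K T τ L x b) : Ex N c x b = c x b := by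
  classical
  rw [Ex_eq]
  unfold Phi
  rw [if_pos h]

theorem Ex2 (N : Nd K T F τ L) {x y b : V} (h : Hp K T τ L x y) (t : Tg F x y b)
    (hb : Lw T L x b) : Ex N c x b = c x y * Ex N c y b := by
  classical
  rw [Ex_eq]
  unfold Phi
  have hex : ∃ y, Hp K T τ L x y ∧ Tg F x y b := ⟨y, h, t⟩
  rw [if_neg (N.nparH h hb), dif_pos hex]
  have hs := hex.choose_spec
  generalize hex.choose = y' at hs ⊢
  have e : y' = y := N.uHp hs.1 h
  subst e
  beta_reduce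
  rw [if_pos (Or.inr h.2.2)]

theorem Nd.nosl (N : Nd K T F τ L) {a b z : V} {k : K} (ha : k • a = a) (hz : k • z ≠ z)
    (hkb : k • b = b) (t : Tg F a b z) (h1 : L z + 1 = L a) (h2 : L a = L b) (w : V) :
    ¬ Sl K T L a w := by
  rintro ⟨hw, s⟩
  have f := N.fx a w s.1 s.2
  by_cases ht : τ w = τ z
  · obtain ⟨l, hl, hlw⟩ := N.low1 a w z hw ⟨N.tri.t_adj2 t, h1⟩ ht
    rw [f l hl] at hlw
    exact hz (by rw [← hlw]; exact f k ha)
  · obtain ⟨l, hl, hlw⟩ := N.low2 a w z hw ⟨N.tri.t_adj2 t, h1⟩ ht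
    have hi : l⁻¹ • a = a := by rw [inv_smul_eq_iff, hl]
    have t1 := N.act l⁻¹ hlw
    rw [hi, f _ hi, inv_smul_smul] at t1
    have t2 := N.act k t1
    rw [ha, f k ha] at t2
    have t3 := N.act k t
    rw [ha, hkb] at t3
    rcases N.tri.g4 a w z b (k • z) t1 (N.tri.t_sw t) t3 (N.tri.t_sw t2) with h | h
    · have := hw.2
      rw [h] at this
      omega
    · exact hz h.symm

theorem Ind (N : Nd K T F τ L) {a b z z' : V} (t : Tg F a b z) (t' : Tg F a b z')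
    (hz : L z + 1 = L a) (hz' : L z' + 1 = L a) (hab : L a = L b) :
    Ex N c a z * (Ex N c b z)⁻¹ = Ex N c a z' * (Ex N c b z')⁻¹ := by
  by_cases hzz : z = z'
  · rw [hzz]
  have ht : τ z = τ z' := z3b (τ a) (τ z) (τ b) (τ z') (N.tn _ _ (N.tri.t_adj2 t))
    (N.tn _ _ (N.tri.t_adj t)) (N.tn _ _ (N.tri.t_adj3 t)).symm (N.tn _ _ (N.tri.t_adj2 t'))
    (N.tn _ _ (N.tri.t_adj3 t'))
  obtain ⟨k, hk, hkz⟩ := N.low1 a z z' ⟨N.tri.t_adj2 t, hz⟩ ⟨N.tri.t_adj2 t', hz'⟩ ht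
  have hkn : k • z ≠ z := by
    rw [hkz]
    exact fun h => hzz h.symm
  rcases N.cor k a b z t (by rw [hkz]; exact t') hk with hb | hb
  swap
  · exact absurd hb hkn
  have hk1 : k ≠ 1 := by
    rintro rfl
    exact hkn (one_smul _ _)
  have tb : Tg F b a z := N.tri.t_rot (N.tri.t_rev t)
  have tb' : Tg F b a z' := N.tri.t_rot (N.tri.t_rev t')
  rcases z3c (τ a) (τ b) (N.tn _ _ (N.tri.t_adj t)) with h | h
  · have hp : Hp K T τ L b a := ⟨N.nosl hb hkn hk tb (by omega) hab.symm,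
      ⟨N.tri.t_adj tb, k, hk1, hb, hk⟩, N.tri.t_adj tb, hab, h.symm⟩
    rw [Ex2 N hp tb ⟨N.tri.t_adj2 tb, by omega⟩, Ex2 N hp tb' ⟨N.tri.t_adj2 tb', by omega⟩]
    simp only [mul_inv_rev]
    rw [mul_inv_cancel_left, mul_inv_cancel_left]
  · have hp : Hp K T τ L a b := ⟨N.nosl hk hkn hb t hz hab,
      ⟨N.tri.t_adj t, k, hk1, hk, hb⟩, N.tri.t_adj t, hab.symm, h⟩
    rw [Ex2 N hp t ⟨N.tri.t_adj2 t, by omega⟩, Ex2 N hp t' ⟨N.tri.t_adj2 t', by omega⟩]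
    rw [mul_assoc, mul_assoc, mul_inv_cancel, mul_inv_cancel]

theorem Ex3 (N : Nd K T F τ L) {x a b z : V} (h : Par K T τ L x a) (ha : Lw T L x a)
    (hb : Lw T L x b) (t : Tg F x a b) (tz : Tg F a b z) (hz : L z + 1 = L b) :
    Ex N c x b = c x a * (Ex N c a z * (Ex N c b z)⁻¹) := by
  classical
  have l1 := ha.2
  have l2 := hb.2
  rw [Ex_eq]
  unfold Phi
  have hex : ∃ p : V × V, Par K T τ L x p.1 ∧ Lw T L x p.1 ∧ Lw T L x b ∧ Tg F x p.1 b ∧
      Tg F p.1 b p.2 ∧ L p.2 + 1 = L b := ⟨(a, z), h, ha, hb, t, tz, hz⟩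
  rw [if_neg (N.npar h ha hb t), dif_neg (fun ⟨y, hy, _⟩ => Nd.par_h h ha y hy), dif_pos hex]
  have hs := hex.choose_spec
  generalize hex.choose = p at hs ⊢
  obtain ⟨a', z'⟩ := p
  dsimp only at hs ⊢
  obtain ⟨h1, h2, h3, h4, h5, h6⟩ := hs
  have e : a' = a := N.uq h2 ha hb h4 t (Nd.par_s h1 h2)
  subst e
  rw [if_pos (Or.inl (by omega)), if_pos (Or.inl (by omega))]
  rw [Ind N h5 tz (by omega) (by omega) (by omega)]

theorem Ex4 (N : Nd K T F τ L) {x y a b z : V} (h : Hp K T τ L x y) (ty : Tg F x y a)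
    (ha : Lw T L x a) (hb : Lw T L x b) (t : Tg F x a b) (tz : Tg F a b z) (hz : L z + 1 = L b) :
    Ex N c x b = c x y * Ex N c y a * (Ex N c a z * (Ex N c b z)⁻¹) := by
  classical
  have l1 := ha.2
  have l2 := hb.2
  rw [Ex_eq]
  unfold Phi
  have hex : ∃ p : V × V × V, Hp K T τ L x p.1 ∧ Tg F x p.1 p.2.1 ∧ Lw T L x p.2.1 ∧ Lw T L x b ∧
      Tg F x p.2.1 b ∧ Tg F p.2.1 b p.2.2 ∧ L p.2.2 + 1 = L b :=
    ⟨(y, a, z), h, ty, ha, hb, t, tz, hz⟩
  have n2 : ¬ ∃ y, Hp K T τ L x y ∧ Tg F x y b := by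
    rintro ⟨y', h1, h2⟩
    rw [N.uHp h1 h] at h2
    exact N.tri.g3 x y a b ty t (N.tri.t_sw h2)
  have n3 : ¬ ∃ p : V × V, Par K T τ L x p.1 ∧ Lw T L x p.1 ∧ Lw T L x b ∧ Tg F x p.1 b ∧
      Tg F p.1 b p.2 ∧ L p.2 + 1 = L b := by
    rintro ⟨p, h1, h2, -⟩
    exact Nd.par_h h1 h2 y h
  rw [if_neg (N.nparH h hb), dif_neg n2, dif_neg n3, dif_pos hex]
  have hs := hex.choose_spec
  generalize hex.choose = p at hs ⊢
  obtain ⟨y', a', z'⟩ := p
  dsimp only at hs ⊢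
  obtain ⟨h1, h2, h3, h4, h5, h6, h7⟩ := hs
  have e : y' = y := N.uHp h1 h
  subst e
  have e : a' = a := N.uq h3 ha hb h5 t (Or.inl h.1)
  subst e
  rw [if_pos (Or.inr h.2.2), if_pos (Or.inl (by omega)), if_pos (Or.inl (by omega))]
  rw [Ind N h6 tz (by omega) (by omega) (by omega)]

/-- triangles with two lower vertices -/
theorem Top (N : Nd K T F τ L) {x b1 b2 z : V} (t : Tg F x b1 b2) (h1 : Lw T L x b1)
    (h2 : Lw T L x b2) (tz : Tg F b1 b2 z) (hz : L z + 1 = L b1) :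
    Ex N c x b1 * (Ex N c b1 z * (Ex N c b2 z)⁻¹) = Ex N c x b2 := by
  have l1 := h1.2
  have l2 := h2.2
  have ts : Tg F b2 b1 z := N.tri.t_rot (N.tri.t_rev tz)
  by_cases p1 : Par K T τ L x b1
  · rw [Ex1 N p1, Ex3 N p1 h1 h2 t tz (by omega)]
  by_cases p2 : Par K T τ L x b2
  · rw [Ex1 N p2, Ex3 N p2 h2 h1 (N.tri.t_sw t) ts (by omega)]
    simp only [mul_assoc, inv_mul_cancel_left, mul_inv_cancel, mul_one]
  rcases N.cases h1 with h | ⟨a, g1, g2, g3⟩ | ⟨y, g1, g2⟩ | ⟨y, a, g1, g2, g3, g4⟩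
  · exact absurd h p1
  · have e : a = b2 := N.uq g2 h2 h1 g3 (N.tri.t_sw t) (Nd.par_s g1 g2)
    rw [e] at g1
    exact absurd g1 p2
  · rw [Ex4 N g1 g2 h1 h2 t tz (by omega), Ex2 N g1 g2 h1]
  · have e : a = b2 := N.uq g3 h2 h1 g4 (N.tri.t_sw t) (Or.inl g1.1)
    subst e
    rw [Ex2 N g1 g2 h2, Ex4 N g1 g2 h2 h1 g4 ts (by omega)]
    simp only [mul_assoc, inv_mul_cancel_left, mul_inv_cancel, mul_one]

open Classical in
/-- the extension -/
noncomputable def Ce (N : Nd K T F τ L) (c : V → V → G) (x y : V) : G :=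
  if L y < L x then Ex N c x y else if L x < L y then (Ex N c y x)⁻¹ else
    if h : ∃ z, Tg F x y z ∧ L z + 1 = L x then Ex N c x h.choose * (Ex N c y h.choose)⁻¹ else 1

theorem Ce_dn (N : Nd K T F τ L) {x y : V} (h : L y < L x) : Ce N c x y = Ex N c x y := by
  unfold Ce
  rw [if_pos h]

theorem Ce_up (N : Nd K T F τ L) {x y : V} (h : L x < L y) : Ce N c x y = (Ex N c y x)⁻¹ := by
  unfold Ce
  rw [if_neg (by omega), if_pos h]

theorem Ce_eq (N : Nd K T F τ L) {x y z : V} (h : L x = L y) (t : Tg F x y z)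
    (hz : L z + 1 = L x) : Ce N c x y = Ex N c x z * (Ex N c y z)⁻¹ := by
  unfold Ce
  have hex : ∃ z, Tg F x y z ∧ L z + 1 = L x := ⟨z, t, hz⟩
  rw [if_neg (by omega), if_neg (by omega), dif_pos hex]
  have hs := hex.choose_spec
  generalize hex.choose = w at hs ⊢
  exact Ind N hs.1 t hs.2 hz h

theorem Ce_inv (N : Nd K T F τ L) {x y : V} (h : T.Adj x y) : Ce N c x y * Ce N c y x = 1 := by
  rcases Nat.lt_trichotomy (L x) (L y) with h3 | h3 | h3
  · rw [Ce_up N h3, Ce_dn N h3, inv_mul_cancel]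
  · obtain ⟨z, hz, hz'⟩ := N.hor x y h h3
    rw [Ce_eq N h3 hz hz', Ce_eq N h3.symm (N.tri.t_rot (N.tri.t_rev hz)) (by omega)]
    simp
  · rw [Ce_up N h3, Ce_dn N h3, mul_inv_cancel]

theorem Ce_A (N : Nd K T F τ L) {x y z : V} (t : Tg F x y z) (h1 : L y < L x) (h2 : L z < L x) :
    Ce N c x y * Ce N c y z * Ce N c z x = 1 := by
  have l1 := N.step x y (N.tri.t_adj t)
  have l2 := N.step x z (N.tri.t_adj2 t)
  obtain ⟨w, hw, hw'⟩ := N.hor y z (N.tri.t_adj3 t) (by omega)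
  rw [Ce_dn N h1, Ce_up N h2, Ce_eq N (by omega) hw hw', Top N t ⟨N.tri.t_adj t, by omega⟩
    ⟨N.tri.t_adj2 t, by omega⟩ hw hw', mul_inv_cancel]

theorem Ce_B (N : Nd K T F τ L) {x y z : V} (t : Tg F x y z) (h1 : L z < L x) (h2 : L z < L y) :
    Ce N c x y * Ce N c y z * Ce N c z x = 1 := by
  have l1 := N.step y z (N.tri.t_adj3 t)
  have l2 := N.step x z (N.tri.t_adj2 t)
  rw [Ce_eq N (by omega) t (by omega), Ce_dn N h2, Ce_up N h1]
  simp

theorem Ce_tri (N : Nd K T F τ L) {x y z : V} (t : Tg F x y z) :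
    Ce N c x y * Ce N c y z * Ce N c z x = 1 := by
  have l1 := N.step x y (N.tri.t_adj t)
  have l2 := N.step x z (N.tri.t_adj2 t)
  have l3 := N.step y z (N.tri.t_adj3 t)
  have l4 := N.step y x (N.tri.t_adj t).symm
  have l5 := N.step z x (N.tri.t_adj2 t).symm
  have l6 := N.step z y (N.tri.t_adj3 t).symm
  have hne : ¬ (L x = L y ∧ L y = L z) := fun h => N.e3 x y z t h.1 h.2
  have t1 := N.tri.t_rot t
  have t2 := N.tri.t_rot t1
  have r1 : Ce N c y z * Ce N c z x * Ce N c x y = Ce N c x y * Ce N c y z * Ce N c z x := by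
    rw [mul_comm, ← mul_assoc]
  have r2 : Ce N c z x * Ce N c x y * Ce N c y z = Ce N c x y * Ce N c y z * Ce N c z x := by
    rw [mul_assoc, mul_comm]
  have hc : (L y < L x ∧ L z < L x) ∨ (L z < L y ∧ L x < L y) ∨ (L x < L z ∧ L y < L z) ∨
      (L z < L x ∧ L z < L y) ∨ (L x < L y ∧ L x < L z) ∨ (L y < L z ∧ L y < L x) := by omega
  rcases hc with ⟨h, h'⟩ | ⟨h, h'⟩ | ⟨h, h'⟩ | ⟨h, h'⟩ | ⟨h, h'⟩ | ⟨h, h'⟩
  · exact Ce_A N t h h'
  · rw [← r1]
    exact Ce_A N t1 h h'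
  · rw [← r2]
    exact Ce_A N t2 h h'
  · exact Ce_B N t h h'
  · rw [← r1]
    exact Ce_B N t1 h h'
  · rw [← r2]
    exact Ce_B N t2 h h'

theorem Ce_coc (N : Nd K T F τ L) : Coc T F (Ce N c) := by
  constructor
  · exact fun x y h => Ce_inv N h
  · intro φ hφ n hn
    have hn3 : n = 3 := hn.unique (N.tri.per φ hφ)
    subst hn3
    rw [wrap3, per3 hn (i := 3) (j := 0) (by norm_num)]
    exact Ce_tri N ⟨φ, hφ, rfl, rfl, rfl⟩

theorem Ce_par (N : Nd K T F τ L) {x y : V} (h : Par K T τ L x y) : Ce N c x y = c x y := by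
  have hp := h
  rcases h with h | h | h
  · have := h.1.1.2
    rw [Ce_dn N (by omega), Ex1 N hp]
  · obtain ⟨h1, h2, h3, h4, h5⟩ := h
    obtain ⟨z, hz, hz'⟩ := N.hor x y h3 h4.symm
    rw [Ce_eq N h4.symm hz hz', Ex2 N ⟨h1, h2, h3, h4, h5⟩ hz ⟨N.tri.t_adj2 hz, hz'⟩]
    simp
  · have := h.2.2.1.2
    rw [Ce_dn N (by omega), Ex1 N hp]

theorem Nd.tree (N : Nd K T F τ L) (hs : SC T F) : (Gm K T τ L).IsTree := by
  refine tree_of_coc (N.conn hs.1) ?_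
  intro c hc
  obtain ⟨f, hf⟩ := hs.2 _ _ (Ce_coc (c := c) N)
  refine ⟨f, fun x y h => ?_⟩
  rcases gm_adj.1 h with h1 | h1
  · rw [← hf x y (par_adj h1), Ce_par N h1]
  · have h2 := hf x y (par_adj h1).symm
    rw [← h2]
    have h3 := Ce_inv (c := c) N (par_adj h1)
    rw [Ce_par N h1] at h3
    have h4 := hc y x h.symm
    rw [← h4] at h3
    exact (mul_left_cancel h3).symm

theorem Nd.sl_k (N : Nd K T F τ L) (k : K) {x y : V} (h : Sl K T L x y) :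
    Sl K T L (k • x) (k • y) := by
  obtain ⟨⟨h1, h2⟩, -, l, hl, hx, hy⟩ := h
  refine ⟨⟨N.ac.adj k _ _ h1, by rw [N.lk, N.lk]; exact h2⟩, N.ac.adj k _ _ h1, k * l * k⁻¹, ?_, ?_, ?_⟩
  · intro he
    apply hl
    have : k * l = k := mul_inv_eq_one.1 he
    exact mul_eq_left.1 this
  · rw [mul_smul, mul_smul, inv_smul_smul, hx]
  · rw [mul_smul, mul_smul, inv_smul_smul, hy]

theorem Nd.nsl_k (N : Nd K T F τ L) (k : K) {x : V} (h : ∀ z, ¬ Sl K T L x z) (z : V) :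
    ¬ Sl K T L (k • x) z := by
  intro hz
  have := N.sl_k k⁻¹ hz
  rw [inv_smul_smul] at this
  exact h _ this

theorem Nd.hp_k (N : Nd K T F τ L) (k : K) {x y : V} (h : Hp K T τ L x y) :
    Hp K T τ L (k • x) (k • y) := by
  obtain ⟨h0, ⟨-, l, hl, hx, hy⟩, h1, h2, h3⟩ := h
  refine ⟨N.nsl_k k h0, ⟨N.ac.adj k _ _ h1, k * l * k⁻¹, ?_, ?_, ?_⟩, N.ac.adj k _ _ h1, ?_, ?_⟩
  · intro he
    apply hl
    have : k * l = k := mul_inv_eq_one.1 he
    exact mul_eq_left.1 this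
  · rw [mul_smul, mul_smul, inv_smul_smul, hx]
  · rw [mul_smul, mul_smul, inv_smul_smul, hy]
  · rw [N.lk, N.lk]
    exact h2
  · rw [N.ty, N.ty]
    exact h3

theorem Nd.par_k (N : Nd K T F τ L) (k : K) {x y : V} (h : Par K T τ L x y) :
    Par K T τ L (k • x) (k • y) := by
  rcases h with ⟨h, h'⟩ | h | ⟨h1, h2, h3, h4⟩
  · refine Or.inl ⟨N.sl_k k h, ?_⟩
    rw [N.ty, N.ty]
    refine h'.imp id fun h5 z hz => ?_
    have h6 := N.sl_k k⁻¹ hz
    rw [inv_smul_smul] at h6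
    have h7 := h5 _ h6
    rwa [N.ty] at h7
  · exact Or.inr (Or.inl (N.hp_k k h))
  · refine Or.inr (Or.inr ⟨N.nsl_k k h1, ?_, ⟨N.ac.adj k _ _ h3.1, ?_⟩, ?_⟩)
    · intro z hz
      have := N.hp_k k⁻¹ hz
      rw [inv_smul_smul] at this
      exact h2 _ this
    · rw [N.lk, N.lk]
      exact h3.2
    · rw [N.ty, N.ty]
      refine h4.imp id fun h5 z hz => ?_
      have h6 : Lw T L x (k⁻¹ • z) := by
        refine ⟨?_, ?_⟩
        · have := N.ac.adj k⁻¹ _ _ hz.1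
          rwa [inv_smul_smul] at this
        · rw [N.lk, hz.2, N.lk]
      have h7 := h5 _ h6
      rwa [N.ty] at h7

end

/-- **TREE** -/
theorem t_TREE : S_TREE := by
  intro K V W _ _ T F q τ D
  obtain ⟨o⟩ := D.sc'.1.nonempty
  obtain ⟨ℓ, hL⟩ := t_PATH W (QT T q) (QF F q) D.tri' D.sc' o
  have N := D.nd hL
  refine ⟨Gm K T τ (fun x => ℓ (q x)), N.tree D.sc, ?_, ?_⟩
  · intro x y h
    rcases gm_adj.1 h with h | h
    · exact par_adj h
    · exact (par_adj h).symm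
  · intro k u v h
    rcases gm_adj.1 h with h | h
    · exact gm_adj.2 (Or.inl (N.par_k k h))
    · exact gm_adj.2 (Or.inr (N.par_k k h))

end Run7.h909.T3
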