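import Mathlib

set_option autoImplicit false

/-!
# Flips of edge paths in triangle complexes

An edge path is a list of vertices, newest vertex first.
-/

namespace Run7.h909.T3

universe u

/-- The triangles of a complex whose links have girth at least six. -/
structure TrS (V : Type u) where
  tg : V → V → V → Prop
  rot : ∀ {x y z : V}, tg x y z → tg y z x
  rev : ∀ {x y z : V}, tg x y z → tg z y x
  ne : ∀ {x y z : V}, tg x y z → x ≠ y
  g3 : ∀ {v a b c : V}, tg v a b → tg v b c → tg v c a → False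
  g4 : ∀ {v a b c d : V}, tg v a b → tg v b c → tg v c d → tg v d a → a = c ∨ b = d
  g5 : ∀ {v a b c d e : V}, tg v a b → tg v b c → tg v c d → tg v d e → tg v e a → False

variable {V : Type u} (S : TrS V)

namespace TrS

variable {S} {x y z w : V}

theorem rot2 (h : S.tg x y z) : S.tg z x y := S.rot (S.rot h)
theorem s12 (h : S.tg x y z) : S.tg y x z := S.rot (S.rev h)
theorem s23 (h : S.tg x y z) : S.tg x z y := S.rot (S.rot (S.rev h))
theorem ne2 (h : S.tg x y z) : y ≠ z := S.ne (S.rot h)
theorem ne3 (h : S.tg x y z) : x ≠ z := (S.ne (S.rot (S.rot h))).symm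

end TrS

/-- a rhombus -/
def Rh (x y w z : V) : Prop := S.tg x y z ∧ S.tg y z w ∧ x ≠ w

/-- One flip across a rhombus. -/
inductive Flip : List V → List V → Prop
  | here {x y w z : V} {L : List V} :
      Rh S x y w z → Flip (x :: y :: w :: L) (x :: z :: w :: L)
  | tail {x : V} {L L' : List V} : Flip L L' → Flip (x :: L) (x :: L')

/-- Equivalence of paths under flips. -/
def Eqv : List V → List V → Prop := Relation.ReflTransGen (Flip S)

/-- A path with a backtrack or a shortcut. -/
inductive Bt : List V → Prop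
  | here {x y z : V} {L : List V} : (x = z ∨ S.tg x y z) → Bt (x :: y :: z :: L)
  | tail {x : V} {L : List V} : Bt L → Bt (x :: L)

/-- Reduced paths. -/
def Red (P : List V) : Prop := ∀ Q, Eqv S P Q → ¬ Bt S Q

variable {S}

theorem Rh.symm {x y w z : V} (h : Rh S x y w z) : Rh S x z w y :=
  ⟨TrS.s23 h.1, TrS.s12 h.2.1, h.2.2⟩

theorem Flip.symm {P Q : List V} (h : Flip S P Q) : Flip S Q P := by
  induction h with
  | here h => exact Flip.here h.symm
  | tail _ ih => exact Flip.tail ih

theorem Eqv.refl (P : List V) : Eqv S P P := Relation.ReflTransGen.refl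

theorem Eqv.symm {P Q : List V} (h : Eqv S P Q) : Eqv S Q P := by
  induction h with
  | refl => exact Eqv.refl _
  | tail _ h2 ih => exact Relation.ReflTransGen.head h2.symm ih

theorem Eqv.trans {P Q R : List V} (h : Eqv S P Q) (h' : Eqv S Q R) : Eqv S P R :=
  Relation.ReflTransGen.trans h h'

theorem Eqv.single {P Q : List V} (h : Flip S P Q) : Eqv S P Q := Relation.ReflTransGen.single h

theorem Eqv.cons {P Q : List V} (x : V) (h : Eqv S P Q) : Eqv S (x :: P) (x :: Q) := by
  induction h with
  | refl => exact Eqv.refl _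
  | tail _ h2 ih => exact Relation.ReflTransGen.tail ih (Flip.tail h2)

theorem Flip.length {P Q : List V} (h : Flip S P Q) : P.length = Q.length := by
  induction h with
  | here _ => rfl
  | tail _ ih => simp [ih]

theorem Eqv.length {P Q : List V} (h : Eqv S P Q) : P.length = Q.length := by
  induction h with
  | refl => rfl
  | tail _ h2 ih => exact ih.trans h2.length

theorem Flip.ne_nil {P Q : List V} (h : Flip S P Q) : P ≠ [] := by
  cases h <;> simp

theorem Flip.head {P Q : List V} (h : Flip S P Q) : P.head? = Q.head? := by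
  cases h <;> rfl

theorem Eqv.head {P Q : List V} (h : Eqv S P Q) : P.head? = Q.head? := by
  induction h with
  | refl => rfl
  | tail _ h2 ih => exact ih.trans h2.head

theorem Flip.last {P Q : List V} (h : Flip S P Q) : P.getLast? = Q.getLast? := by
  induction h with
  | here _ => simp [List.getLast?_cons_cons]
  | @tail x L L' h ih =>
    have h1 := h.ne_nil
    have h2 := h.symm.ne_nil
    cases L with
    | nil => exact absurd rfl h1
    | cons a L =>
      cases L' with
      | nil => exact absurd rfl h2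
      | cons b L' => rw [List.getLast?_cons_cons, List.getLast?_cons_cons]; exact ih

theorem Eqv.last {P Q : List V} (h : Eqv S P Q) : P.getLast? = Q.getLast? := by
  induction h with
  | refl => rfl
  | tail _ h2 ih => exact ih.trans h2.last

theorem Eqv.head_eq {x y : V} {P Q : List V} (h : Eqv S (x :: P) (y :: Q)) : x = y := by
  have := h.head
  simpa using this

theorem Eqv.exists_cons {x : V} {P Q : List V} (h : Eqv S (x :: P) Q) : ∃ Q', Q = x :: Q' := by
  have h1 := h.head
  cases Q with
  | nil => simp at h1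
  | cons y Q => exact ⟨Q, by simp at h1; rw [h1]⟩

variable (S) in
/-- The relation between the two tails of two equivalent paths. -/
def Rho (x : V) (P Q : List V) : Prop :=
  Eqv S P Q ∨ ∃ y z w R, Rh S x y w z ∧ Eqv S P (y :: w :: R) ∧ Eqv S Q (z :: w :: R)

theorem rho_trans_aux {n : ℕ} {x : V}
    (IH : ∀ (y : V) (P Q : List V), P.length < n → Eqv S (y :: P) (y :: Q) → Rho S y P Q)
    {P1 P2 P3 : List V} (hn : P1.length = n) (h12 : Rho S x P1 P2) (h23 : Rho S x P2 P3) :
    Rho S x P1 P3 := by
  rcases h12 with h12 | ⟨y1, y2, w, R, hs, h1, h2⟩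
  · rcases h23 with h23 | ⟨y2, y3, w, R, hs, h2, h3⟩
    · exact Or.inl (h12.trans h23)
    · exact Or.inr ⟨y2, y3, w, R, hs, h12.trans h2, h3⟩
  · rcases h23 with h23 | ⟨y2', y3, w', R', hs', h2', h3⟩
    · exact Or.inr ⟨y1, y2, w, R, hs, h1, h23.symm.trans h2⟩
    · have h := h2.symm.trans h2'
      obtain rfl : y2 = y2' := h.head_eq
      have hlen : (w :: R).length < n := by
        have := h1.length
        simp only [List.length_cons] at this ⊢
        omega
      rcases IH y2 (w :: R) (w' :: R') hlen h with h4 | ⟨a, b, u, R'', hs'', h5, h6⟩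
      · obtain rfl : w = w' := h4.head_eq
        rcases S.g4 (v := y2) (a := x) (b := y1) (c := w) (d := y3) (TrS.rot2 hs.1)
          (TrS.s12 hs.2.1) (TrS.s23 hs'.2.1) (S.rot hs'.1) with h7 | h7
        · exact absurd h7 hs.2.2
        · subst h7
          exact Or.inl (h1.trans ((h4.cons y1).trans h3.symm))
      · obtain rfl : w = a := h5.head_eq
        obtain rfl : w' = b := h6.head_eq
        exact (S.g5 (v := y2) (a := x) (b := y1) (c := w) (d := w') (e := y3) (TrS.rot2 hs.1)
          (TrS.s12 hs.2.1) hs''.1 (TrS.s23 hs'.2.1) (S.rot hs'.1)).elim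

theorem rho_of_eqv_aux : ∀ (n : ℕ) (x : V) (P Q : List V), P.length = n →
    Eqv S (x :: P) (x :: Q) → Rho S x P Q := by
  intro n
  induction n using Nat.strong_induction_on with
  | _ n IH =>
    intro x P Q hP h
    have IH' : ∀ (y : V) (P Q : List V), P.length < n → Eqv S (y :: P) (y :: Q) →
        Rho S y P Q := fun y P Q hlt h => IH _ hlt y P Q rfl h
    have key : ∀ Z, Eqv S (x :: P) Z → ∃ Q, Z = x :: Q ∧ Rho S x P Q := by
      intro Z hZ
      induction hZ with
      | refl => exact ⟨P, rfl, Or.inl (Eqv.refl _)⟩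
      | tail h1 h2 ih =>
        obtain ⟨Q', rfl, hQ'⟩ := ih
        cases h2 with
        | @here _ y w z L hs =>
          exact ⟨_, rfl, rho_trans_aux IH' hP hQ'
            (Or.inr ⟨y, z, w, L, hs, Eqv.refl _, Eqv.refl _⟩)⟩
        | tail h2 => exact ⟨_, rfl, rho_trans_aux IH' hP hQ' (Or.inl (Eqv.single h2))⟩
    obtain ⟨Q', h1, h2⟩ := key _ h
    cases h1
    exact h2

theorem rho_of_eqv {x : V} {P Q : List V} (h : Eqv S (x :: P) (x :: Q)) : Rho S x P Q :=
  rho_of_eqv_aux _ x P Q rfl h

/-- with heads -/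
theorem rho_heads {x y z : V} {P Q : List V} (h : Eqv S (x :: y :: P) (x :: z :: Q)) :
    (y = z ∧ Eqv S (y :: P) (z :: Q)) ∨ ∃ w R, Rh S x y w z ∧ Eqv S (y :: P) (y :: w :: R) ∧
      Eqv S (z :: Q) (z :: w :: R) := by
  rcases rho_of_eqv h with h1 | ⟨a, b, w, R, hs, h1, h2⟩
  · exact Or.inl ⟨h1.head_eq, h1⟩
  · obtain rfl := h1.head_eq
    obtain rfl := h2.head_eq
    exact Or.inr ⟨w, R, hs, h1, h2⟩

/-- Right cancellation. -/
theorem Eqv.cancel {x y : V} {P Q : List V} (h : Eqv S (x :: y :: P) (x :: y :: Q)) :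
    Eqv S (y :: P) (y :: Q) := by
  rcases rho_heads h with h | ⟨w, R, hs, -, -⟩
  · exact h.2
  · exact absurd rfl (TrS.ne2 hs.1)

theorem Red.tail {x : V} {P : List V} (h : Red S (x :: P)) : Red S P :=
  fun Q hQ hb => h (x :: Q) (hQ.cons x) (Bt.tail hb)

theorem Red.of_eqv {P Q : List V} (h : Red S P) (hPQ : Eqv S P Q) : Red S Q :=
  fun R hR => h R (hPQ.trans hR)

theorem Red.no {x y z : V} {L : List V} (h : Red S (x :: y :: z :: L)) :
    x ≠ z ∧ ¬ S.tg x y z :=
  ⟨fun e => h _ (Eqv.refl _) (Bt.here (Or.inl e)), fun e => h _ (Eqv.refl _) (Bt.here (Or.inr e))⟩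

/-- `x` is below or beside `y` -/
theorem dh_aux : ∀ (n : ℕ) (x y : V) (P : List V), P.length = n →
    Red S (y :: P) → ¬ Red S (x :: y :: P) →
      (∃ R, Eqv S (y :: P) (y :: x :: R)) ∨ ∃ z R, Eqv S (y :: P) (y :: z :: R) ∧ S.tg x y z := by
  intro n
  induction n using Nat.strong_induction_on with
  | _ n IH =>
    intro x y P hP hred hnred
    unfold Red at hnred
    push Not at hnred
    obtain ⟨W', hW', hbt⟩ := hnred
    obtain ⟨W, rfl⟩ := hW'.exists_cons
    cases hbt with
    | @here _ b c L hbc =>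
      rcases rho_heads hW' with ⟨rfl, h⟩ | ⟨w, R, hs, h1, h2⟩
      · rcases hbc with rfl | hbc
        · exact Or.inl ⟨L, h⟩
        · exact Or.inr ⟨c, L, h, hbc⟩
      · exfalso
        rcases rho_heads h2 with ⟨rfl, -⟩ | ⟨u, R1, hs2, -, h4⟩
        · rcases hbc with rfl | hbc
          · exact hs.2.2 rfl
          · exact S.g3 (v := b) (a := x) (b := c) (c := y) (TrS.s12 hbc) (S.rot hs.2.1)
              (TrS.s23 (TrS.rot2 hs.1))
        · rcases hbc with rfl | hbc
          · exact S.g3 (v := b) (a := x) (b := w) (c := y) hs2.1 (TrS.s23 (TrS.s12 hs.2.1))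
              (TrS.s23 (TrS.rot2 hs.1))
          · rcases S.g4 (v := b) (a := x) (b := c) (c := w) (d := y) (TrS.s12 hbc) hs2.1
              (TrS.s23 (TrS.s12 hs.2.1)) (TrS.s23 (TrS.rot2 hs.1)) with h5 | h5
            · exact hs.2.2 h5
            · subst h5
              exact (hred.of_eqv (h1.trans (h4.cons c))).no.2 hs2.2.1
    | tail hb =>
      rcases rho_of_eqv hW' with h | ⟨a, b, w, R, hs, h1, h2⟩
      · exact absurd hb (hred W h)
      · obtain rfl := h1.head_eq
        have hwR : Red S (w :: R) := (hred.of_eqv h1).tail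
        have hn : ¬ Red S (b :: w :: R) := fun hr => hr W h2.symm hb
        have hlen : R.length < n := by
          have := h1.length
          simp only [List.length_cons] at this
          omega
        rcases IH R.length hlen b w R rfl hwR hn with ⟨R', hR'⟩ | ⟨z, R', hR', ht⟩
        · exact absurd (TrS.s23 hs.2.1) (hred.of_eqv (h1.trans (hR'.cons y))).no.2
        · have h3 := h1.trans (hR'.cons y)
          have hyz := (hred.of_eqv h3).no.1
          refine Or.inr ⟨b, z :: R', h3.trans (Eqv.single (Flip.here ?_)), hs.1⟩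
          exact ⟨TrS.s23 hs.2.1, TrS.s12 ht, hyz⟩

theorem dh {x y : V} {P : List V} (h : Red S (y :: P)) (hn : ¬ Red S (x :: y :: P)) :
    (∃ R, Eqv S (y :: P) (y :: x :: R)) ∨ ∃ z R, Eqv S (y :: P) (y :: z :: R) ∧ S.tg x y z :=
  dh_aux _ x y P rfl h hn

/-- the path to a vertex beside -/
theorem hor_red {x y z : V} {R : List V} (h : Red S (y :: z :: R)) (ht : S.tg x y z)
    (hn : ¬ ∃ R', Eqv S (y :: z :: R) (y :: x :: R')) : Red S (x :: z :: R) := by
  by_contra hc
  rcases dh h.tail hc with ⟨R1, h1⟩ | ⟨u, R1, h1, h2⟩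
  · exact (h.of_eqv (h1.cons y)).no.2 (S.rot ht)
  · have h3 := h.of_eqv (h1.cons y)
    refine hn ⟨u :: R1, (h1.cons y).trans (Eqv.single (Flip.here ?_))⟩
    exact ⟨S.rot ht, TrS.s12 h2, h3.no.1⟩

end Run7.h909.T3
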