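import Pool.Agent.Run7.h909.T3.App
import Pool.Agent.Run7.h909.NC.Grd2

set_option autoImplicit false

/-!
# Project T3: graded domains
-/

namespace Run7.h909.T3

open Run7.h909.GT Run7.h909.NC
open Pool.Agent.Y110.FJ (ClosedE)
open Run7.h579.T3 (Tri2 ring_mem3)

variable {C : ∀ (G : Type) [Group G], Prop}

/-- **graded domains** -/
theorem graded_mem3 (hC : ClosedE C) (hsol : ∀ (S : Type) [Group S], Group.IsSolvable S → C S)
    (hM : Tri2 C) {A σ : Type} [CommRing A] [IsDomain A] [SetLike σ A] [AddSubgroupClass σ A]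
    (𝒜 : ℕ → σ) [GradedRing 𝒜] (h : C (GL (Fin 3) (𝒜 0))) : C (GL (Fin 3) A) := by
  have hc : Cf (comp 𝒜) := comp_cf 𝒜
  have hN := cf_isDeg hc
  refine ring_mem3 hC hsol hM (deg := cdeg (comp 𝒜)) ⟨hN.bot, hN.mul, hN.add⟩
    (fun x hx => cdeg_nonneg hc hx) (RingHom.ker (GradedRing.projZeroRingHom' 𝒜)) ?_ ?_
  · exact hC.base.of_injective _ _
      (Matrix.GeneralLinearGroup.map (RingHom.kerLift (GradedRing.projZeroRingHom' 𝒜)))
      (Run7.h950.T3.map_inj _ (RingHom.kerLift_injective (GradedRing.projZeroRingHom' 𝒜))) h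
  · intro n
    refine ⟨n + 1, fun x hx hd => hc.ext x fun i => ?_⟩
    by_cases hi : i < n + 1
    · exact low_pow hc _ (fun y hy => congrArg Subtype.val hy) (n + 1) x hx i hi
    · exact (cdeg_le hc).1 hd i (by omega)

theorem graded_iff3 (hC : ClosedE C) (hsol : ∀ (S : Type) [Group S], Group.IsSolvable S → C S)
    (hM : Tri2 C) {A σ : Type} [CommRing A] [IsDomain A] [SetLike σ A] [AddSubgroupClass σ A]
    (𝒜 : ℕ → σ) [GradedRing 𝒜] : C (GL (Fin 3) (𝒜 0)) ↔ C (GL (Fin 3) A) :=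
  ⟨graded_mem3 hC hsol hM 𝒜, fun h => hC.base.of_injective _ _
    (Matrix.GeneralLinearGroup.map (algebraMap (𝒜 0) A))
    (Run7.h950.T3.map_inj (n := Fin 3) _ Subtype.val_injective) h⟩

end Run7.h909.T3
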