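import Pool.Agent.Run7.h909.T3.Path
import Pool.Agent.Run7.h417.T3.QUOT

set_option autoImplicit false

/-!
# Levels in a triangle complex with an action
-/

namespace Run7.h909.T3

open SimpleGraph Run7.h909.TD
open Run7.h909.TT (Orb QT QF)
open Run7.h417.T3 (q_ne QT_adj nbr_orb lift_edge lift_tg)

section straight

variable {V : Type} {T : SimpleGraph V} {F : Set (ℤ → V)} {o : V} {ℓ : V → ℕ}

theorem Tri.t_sw (h : Tri T F) {x y z : V} (ht : Tg F x y z) : Tg F x z y := h.t_rev (h.t_rot ht)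

theorem Tri.t_adj2 (h : Tri T F) {x y z : V} (ht : Tg F x y z) : T.Adj x z := h.t_adj (h.t_sw ht)

theorem Tri.t_adj3 (h : Tri T F) {x y z : V} (ht : Tg F x y z) : T.Adj y z := h.t_adj (h.t_rot ht)

/-- straight horizontal paths -/
def St (T : SimpleGraph V) (F : Set (ℤ → V)) (ℓ : V → ℕ) : ℕ → V → V → Prop
  | 0, u, v => T.Adj u v ∧ ℓ u = ℓ v
  | n + 1, u, v => T.Adj u v ∧ ℓ u = ℓ v ∧ ∃ w a b, ℓ a + 1 = ℓ v ∧ ℓ b + 1 = ℓ v ∧ Tg F u v a ∧
      Tg F v w b ∧ Tg F v a b ∧ St T F ℓ n v w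

theorem Lv.uniq (h : Tri T F) (hL : Lv T F o ℓ) {u v a b : V} (h1 : Tg F u v a) (h2 : Tg F u v b)
    (ha : ℓ a + 1 = ℓ u) (hb : ℓ b + 1 = ℓ u) : a = b := by
  by_contra hne
  exact h.g3 u v a b h1 (hL.low u a b (h.t_adj2 h1) (h.t_adj2 h2) ha hb hne) (h.t_sw h2)

theorem Lv.desc (h : Tri T F) (hL : Lv T F o ℓ) : ∀ (n : ℕ) (u v w a b : V), ℓ a + 1 = ℓ v →
    ℓ b + 1 = ℓ v → ℓ u = ℓ v → Tg F u v a → Tg F v w b → Tg F v a b → St T F ℓ n v w →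
    St T F ℓ n a b := by
  intro n
  induction n with
  | zero =>
    intro u v w a b ha hb hu h1 h2 h3 _
    exact ⟨h.t_adj3 h3, by omega⟩
  | succ n ih =>
    rintro u v w a b ha hb hu h1 h2 h3 ⟨-, hvw, w', a', b', ha', hb', t1, t2, t3, hS⟩
    have e : a' = b := hL.uniq h t1 h2 (by omega) (by omega)
    subst e
    have hS' := ih v w w' a' b' ha' hb' hvw t1 t2 t3 hS
    obtain ⟨c, hc, hc'⟩ := hL.hor a a' (h.t_adj3 h3) (by omega)
    obtain ⟨d, hd, hd'⟩ := hL.hor a' b' (h.t_adj3 t3) (by omega)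
    have hcd : c ≠ d := by
      rintro rfl
      exact h.g5 a' c a v w b' (h.t_rot hc) (h.t_rev h3) (h.t_rot (h.t_rot t1))
        (h.t_rot (h.t_rev t3)) hd
    refine ⟨h.t_adj3 h3, by omega, b', c, d, by omega, by omega, hc, hd, ?_, hS'⟩
    exact hL.low a' c d (h.t_adj3 hc) (h.t_adj2 hd) (by omega) (by omega) hcd

theorem Lv.bound (h : Tri T F) (hL : Lv T F o ℓ) : ∀ (n : ℕ) (u v : V), St T F ℓ n u v →
    n + 1 ≤ ℓ u := by
  intro n
  induction n with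
  | zero =>
    rintro u v ⟨h1, h2⟩
    obtain ⟨z, -, hz⟩ := hL.hor u v h1 h2
    omega
  | succ n ih =>
    rintro u v ⟨h1, h2, w, a, b, ha, hb, t1, t2, t3, hS⟩
    have := ih a b (hL.desc h n u v w a b ha hb h2 t1 t2 t3 hS)
    omega

end straight

/-- lower neighbours -/
def Lw {V : Type} (T : SimpleGraph V) (L : V → ℕ) (x y : V) : Prop := T.Adj x y ∧ L y + 1 = L x

/-- horizontal neighbours of the previous type -/
def Hd {V : Type} (T : SimpleGraph V) (τ : V → ZMod 3) (L : V → ℕ) (x y : V) : Prop :=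
  T.Adj x y ∧ L y = L x ∧ τ y + 1 = τ x

/-- the properties of the levels -/
structure Nd (K : Type) [Group K] {V : Type} [MulAction K V] (T : SimpleGraph V)
    (F : Set (ℤ → V)) (τ : V → ZMod 3) (L : V → ℕ) : Prop where
  tri : Tri T F
  ac : Ac K T F
  cor : ∀ (k : K) (x a b : V), Tg F x a b → Tg F x a (k • b) → k • x = x → k • a = a ∨ k • b = b
  fx : ∀ x y, T.Adj x y → (∃ k : K, k ≠ 1 ∧ k • x = x ∧ k • y = y) → ∀ z : K, z • x = x → z • y = y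
  ty : ∀ (k : K) (x : V), τ (k • x) = τ x
  tn : ∀ x y, T.Adj x y → τ x ≠ τ y
  lk : ∀ (k : K) (x : V), L (k • x) = L x
  step : ∀ x y, T.Adj x y → L x ≤ L y + 1
  hor : ∀ x y, T.Adj x y → L x = L y → ∃ z, Tg F x y z ∧ L z + 1 = L x
  low1 : ∀ x a b, Lw T L x a → Lw T L x b → τ a = τ b → ∃ k : K, k • x = x ∧ k • a = b
  low2 : ∀ x a b, Lw T L x a → Lw T L x b → τ a ≠ τ b → ∃ k : K, k • x = x ∧ Tg F x a (k • b)
  e3 : ∀ x y z, Tg F x y z → L x = L y → L y = L z → False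
  wf : WellFounded fun y x => L y < L x ∨ Hd T τ L x y

theorem z3a : ∀ a b c : ZMod 3, a ≠ b → a ≠ c → b ≠ c → b + 1 = a → c = a + 1 := by decide
theorem z3b : ∀ a b c d : ZMod 3, a ≠ b → a ≠ c → b ≠ c → a ≠ d → c ≠ d → b = d := by decide
theorem z3c : ∀ a b : ZMod 3, a ≠ b → b = a + 1 ∨ b + 1 = a := by decide
theorem z3d : ∀ a b c : ZMod 3, a ≠ b → a ≠ c → b ≠ c → b ≠ a + 1 → c = a + 1 := by decide
theorem z3e : ∀ a b : ZMod 3, a = b + 1 → b + 1 = a → b = a + 1 → False := by decide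

/-- chains of horizontal neighbours -/
def HC {V : Type} (T : SimpleGraph V) (τ : V → ZMod 3) (L : V → ℕ) : ℕ → V → Prop
  | 0, _ => True
  | m + 1, x => ∃ y, Hd T τ L x y ∧ HC T τ L m y

section

variable {K V W : Type} [Group K] [MulAction K V] {T : SimpleGraph V} {F : Set (ℤ → V)} {q : V → W}
  {τ : V → ZMod 3} {o : W} {ℓ : W → ℕ}

theorem Dat.qk (D : Dat K T F q τ) (k : K) (x : V) : q (k • x) = q x :=
  ((D.hq.eq _ _).2 ⟨k, rfl⟩).symm

theorem Dat.aq (D : Dat K T F q τ) {x y : V} (h : T.Adj x y) : (QT T q).Adj (q x) (q y) :=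
  (QT_adj D.nic D.hq).2 ⟨x, y, h, rfl, rfl⟩

theorem tq {x y z : V} (h : Tg F x y z) : Tg (QF F q) (q x) (q y) (q z) := by
  obtain ⟨φ, hφ, rfl, rfl, rfl⟩ := h
  exact ⟨_, ⟨φ, hφ, rfl⟩, rfl, rfl, rfl⟩

theorem Dat.hor (D : Dat K T F q τ) (hL : Lv (QT T q) (QF F q) o ℓ) {x y : V} (hxy : T.Adj x y)
    (he : ℓ (q x) = ℓ (q y)) : ∃ z, Tg F x y z ∧ ℓ (q z) + 1 = ℓ (q x) := by
  obtain ⟨z', h1, h2⟩ := hL.hor _ _ (D.aq hxy) he
  obtain ⟨z, rfl, hz⟩ := lift_tg D.tri D.ac D.hq D.nic hxy h1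
  exact ⟨z, hz, h2⟩

theorem Dat.tne (D : Dat K T F q τ) {x y : V} (h : τ x ≠ τ y) : q x ≠ q y := by
  intro he
  obtain ⟨k, hk⟩ := (D.hq.eq _ _).1 he
  exact h (by rw [← hk, D.ty])

theorem Dat.chain (D : Dat K T F q τ) (hL : Lv (QT T q) (QF F q) o ℓ) : ∀ (m : ℕ) (x y : V),
    Hd T τ (fun x => ℓ (q x)) x y → HC T τ (fun x => ℓ (q x)) m y →
    St (QT T q) (QF F q) ℓ m (q x) (q y) := by
  intro m
  induction m with
  | zero => exact fun x y h _ => ⟨D.aq h.1, h.2.1.symm⟩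
  | succ m ih =>
    rintro x y ⟨h1, h2, h3⟩ ⟨z, hz, hc⟩
    have h2 : ℓ (q y) = ℓ (q x) := h2
    have hz2 : ℓ (q z) = ℓ (q y) := hz.2.1
    obtain ⟨a, ha, ha'⟩ := D.hor hL h1 h2.symm
    obtain ⟨b, hb, hb'⟩ := D.hor hL hz.1 hz2.symm
    have ta : τ a = τ x + 1 := z3a _ _ _ (D.tn _ _ h1) (D.tn _ _ (D.tri.t_adj2 ha))
      (D.tn _ _ (D.tri.t_adj3 ha)) h3
    have tb : τ b = τ y + 1 := z3a _ _ _ (D.tn _ _ hz.1) (D.tn _ _ (D.tri.t_adj2 hb))
      (D.tn _ _ (D.tri.t_adj3 hb)) hz.2.2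
    have hab : τ a ≠ τ b := by
      rw [ta, tb, h3]
      generalize τ x = t
      revert t
      decide
    refine ⟨D.aq h1, h2.symm, q z, q a, q b, by omega, by omega, tq ha, tq hb, ?_, ih y z hz hc⟩
    exact hL.low _ _ _ (D.aq (D.tri.t_adj3 ha)) (D.aq (D.tri.t_adj2 hb)) (by omega) (by omega)
      (D.tne hab)

theorem Dat.wf (D : Dat K T F q τ) (hL : Lv (QT T q) (QF F q) o ℓ) :
    WellFounded fun y x => ℓ (q y) < ℓ (q x) ∨ Hd T τ (fun x => ℓ (q x)) x y := by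
  have hno : ∀ x, ¬ HC T τ (fun x => ℓ (q x)) (ℓ (q x) + 1) x := by
    rintro x ⟨y, h1, h2⟩
    have := hL.bound D.tri' _ _ _ (D.chain hL _ x y h1 h2)
    omega
  have key : ∀ n m x, ℓ (q x) = n → ¬ HC T τ (fun x => ℓ (q x)) m x →
      Acc (fun y x => ℓ (q y) < ℓ (q x) ∨ Hd T τ (fun x => ℓ (q x)) x y) x := by
    intro n
    induction n using Nat.strong_induction_on with
    | _ n ihn =>
      intro m
      induction m with
      | zero => exact fun x _ h => absurd trivial h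
      | succ m ihm =>
        intro x hx hc
        constructor
        rintro y (hy | hy)
        · exact ihn _ (by omega) (ℓ (q y) + 1) y rfl (hno y)
        · exact ihm y (hy.2.1.trans hx) fun h => hc ⟨y, hy, h⟩
  exact ⟨fun x => key _ _ x rfl (hno x)⟩

theorem Dat.nd (D : Dat K T F q τ) (hL : Lv (QT T q) (QF F q) o ℓ) :
    Nd K T F τ (fun x => ℓ (q x)) where
  tri := D.tri
  ac := D.ac
  cor := D.nic.cor
  fx := D.fx
  ty := D.ty
  tn := D.tn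
  lk := fun k x => by
    show ℓ (q (k • x)) = ℓ (q x)
    rw [D.qk]
  step := fun x y h => hL.step _ _ (D.aq h)
  hor := fun x y h he => D.hor hL h he
  low1 := by
    rintro x a b ⟨h1, h2⟩ ⟨h3, h4⟩ ht
    have hq : q a = q b := by
      by_contra hne
      have h5 := hL.low _ _ _ (D.aq h1) (D.aq h3) h2 h4 hne
      obtain ⟨b', hb', h6⟩ := lift_tg D.tri D.ac D.hq D.nic h1 h5
      obtain ⟨k, hk⟩ := (D.hq.eq _ _).1 hb'
      refine D.tn _ _ (D.tri.t_adj3 h6) ?_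
      rw [ht, ← hk, D.ty]
    obtain ⟨k, hk⟩ := (D.hq.eq _ _).1 hq
    obtain ⟨z, hz1, hz2⟩ := nbr_orb (k := k) D.nic h1 (by rw [hk]; exact h3)
    exact ⟨z, hz1, hz2.trans hk⟩
  low2 := by
    rintro x a b ⟨h1, h2⟩ ⟨h3, h4⟩ ht
    have h5 := hL.low _ _ _ (D.aq h1) (D.aq h3) h2 h4 (D.tne ht)
    obtain ⟨b', hb', h6⟩ := lift_tg D.tri D.ac D.hq D.nic h1 h5
    obtain ⟨k, hk⟩ := (D.hq.eq _ _).1 hb'.symm
    obtain ⟨z, hz1, hz2⟩ := nbr_orb (k := k) D.nic h3 (by rw [hk]; exact D.tri.t_adj2 h6)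
    refine ⟨z, hz1, ?_⟩
    rw [hz2, hk]
    exact h6
  e3 := by
    intro x y z ht h1 h2
    have h1 : ℓ (q x) = ℓ (q y) := h1
    have h2 : ℓ (q y) = ℓ (q z) := h2
    have t : Tg (QF F q) (q x) (q y) (q z) := tq ht
    obtain ⟨a, ha, ha'⟩ := hL.hor _ _ (D.tri'.t_adj t) h1
    obtain ⟨b, hb, hb'⟩ := hL.hor _ _ (D.tri'.t_adj2 t) (h1.trans h2)
    by_cases hab : a = b
    · subst hab
      exact D.tri'.g3 _ _ _ _ ha (D.tri'.t_sw hb) (D.tri'.t_sw t)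
    · have h3 := hL.low _ _ _ (D.tri'.t_adj2 ha) (D.tri'.t_adj2 hb) ha' hb' hab
      rcases D.tri'.g4 _ _ _ _ _ ha h3 (D.tri'.t_sw hb) (D.tri'.t_sw t) with h4 | h4
      · rw [← h4] at hb'
        omega
      · rw [h4] at ha'
        omega
  wf := D.wf hL

end

end Run7.h909.T3
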