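import Pool.Agent.Run7.h909.TT.Main

/-!
# Project T3 (helper909): groups acting on triangle complexes of nonpositive curvature

Definitions and the statements of the pieces. Nothing is assumed about local finiteness.
-/

set_option autoImplicit false

namespace Run7.h909.T3

open SimpleGraph Run7.h909.TD
open Run7.h909.TT (Orb QT QF Kn)

/-- `x y z` is a triangle -/
def Tg {V : Type} (F : Set (ℤ → V)) (x y z : V) : Prop := ∃ φ ∈ F, φ 0 = x ∧ φ 1 = y ∧ φ 2 = z

/-- Triangle complexes: the triangles are given by their closed boundary paths, with all shifts and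
inverses. The link of `v` has the edges `{a, b}` with `Tg F v a b`; it has no closed walks of
length 3 and 5, and only degenerate ones of length 4 (girth at least six). -/
structure Tri {V : Type} (T : SimpleGraph V) (F : Set (ℤ → V)) : Prop where
  adj : ∀ φ ∈ F, ∀ i : ℤ, T.Adj (φ i) (φ (i + 1))
  per : ∀ φ ∈ F, Per φ 3
  shift : ∀ φ ∈ F, ∀ k : ℤ, (fun i => φ (i + k)) ∈ F
  refl : ∀ φ ∈ F, (fun i => φ (-i)) ∈ F
  g3 : ∀ v a b c, Tg F v a b → Tg F v b c → Tg F v c a → False
  g4 : ∀ v a b c d, Tg F v a b → Tg F v b c → Tg F v c d → Tg F v d a → a = c ∨ b = d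
  g5 : ∀ v a b c d e, Tg F v a b → Tg F v b c → Tg F v c d → Tg F v d e → Tg F v e a → False

/-- levels: the distance from `o`, with the two properties of systolic complexes -/
structure Lv {V : Type} (T : SimpleGraph V) (F : Set (ℤ → V)) (o : V) (ℓ : V → ℕ) : Prop where
  zero : ∀ x, ℓ x = 0 ↔ x = o
  step : ∀ x y, T.Adj x y → ℓ x ≤ ℓ y + 1
  down : ∀ x, ℓ x ≠ 0 → ∃ y, T.Adj x y ∧ ℓ y + 1 = ℓ x
  hor : ∀ x y, T.Adj x y → ℓ x = ℓ y → ∃ z, Tg F x y z ∧ ℓ z + 1 = ℓ x
  low : ∀ x a b, T.Adj x a → T.Adj x b → ℓ a + 1 = ℓ x → ℓ b + 1 = ℓ x → a ≠ b → Tg F x a b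

/-- PATH (helper909) -/
def S_PATH : Prop := ∀ (V : Type) (T : SimpleGraph V) (F : Set (ℤ → V)), Tri T F → SC T F →
  ∀ o : V, ∃ ℓ : V → ℕ, Lv T F o ℓ

/-- conditions for a good quotient by `K`: no edge between two vertices of an orbit; two neighbours of
`x` in one orbit are in one orbit of the stabilizer of `x`; the quotient of the link of `x` by the
stabilizer of `x` has no double edges and girth at least six -/
structure Nic (K : Type) [Group K] {V : Type} [MulAction K V] (T : SimpleGraph V)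
    (F : Set (ℤ → V)) : Prop where
  ne : ∀ (k : K) (x y : V), T.Adj x y → k • x ≠ y
  nb : ∀ (k : K) (x y : V), T.Adj x y → T.Adj x (k • y) → k • x = x ∨ k • y = y
  cor : ∀ (k : K) (x a b : V), Tg F x a b → Tg F x a (k • b) → k • x = x → k • a = a ∨ k • b = b
  l3 : ∀ (k : K) (x a b c : V), Tg F x a b → Tg F x b c → Tg F x c (k • a) → k • x = x → False
  l4 : ∀ (k : K) (x a b c d : V), Tg F x a b → Tg F x b c → Tg F x c d → Tg F x d (k • a) →
    k • x = x → (∃ z : K, z • a = c) ∨ ∃ z : K, z • b = d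
  l5 : ∀ (k : K) (x a b c d e : V), Tg F x a b → Tg F x b c → Tg F x c d → Tg F x d e →
    Tg F x e (k • a) → k • x = x → False

/-- QUOT: the quotient is a triangle complex, and simply connected if `K` is generated by elements
with fixed points. Proof: copy of `Pool/Agent/Run7/h909/SQ/Quot.lean` (`QT_adj`, `nbr_orb`, `lift_edge`,
`q_per`, `cub_quot`, `sc_quot`); a closed walk in the link of `q x` lifts to a walk `a, b, ..., k • a`
in the link of `x` with `k • x = x`, by `nb`. -/
def S_QUOT : Prop := ∀ (K V W : Type) [Group K] [MulAction K V] (T : SimpleGraph V)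
  (F : Set (ℤ → V)) (q : V → W), Tri T F → Ac K T F → Orb K q → Nic K T F →
    (∀ a b, (QT T q).Adj a b ↔ ∃ x y, T.Adj x y ∧ q x = a ∧ q y = b) ∧
    Tri (QT T q) (QF F q) ∧
    (SC T F → Subgroup.closure {k : K | ∃ x : V, k • x = x} = ⊤ → SC (QT T q) (QF F q))

/-- the data for the tree; `fx`: the stabilizer of a vertex is the stabilizer of each edge at this
vertex which has a nontrivial stabilizer -/
structure Dat (K : Type) [Group K] {V W : Type} [MulAction K V] (T : SimpleGraph V)
    (F : Set (ℤ → V)) (q : V → W) (τ : V → ZMod 3) : Prop where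
  tri : Tri T F
  sc : SC T F
  ac : Ac K T F
  hq : Orb K q
  nic : Nic K T F
  tri' : Tri (QT T q) (QF F q)
  sc' : SC (QT T q) (QF F q)
  fx : ∀ x y, T.Adj x y → (∃ k : K, k ≠ 1 ∧ k • x = x ∧ k • y = y) → ∀ z : K, z • x = x → z • y = y
  ty : ∀ (k : K) (x : V), τ (k • x) = τ x
  tn : ∀ x y, T.Adj x y → τ x ≠ τ y

/-- TREE (helper909; from PATH) -/
def S_TREE : Prop := ∀ (K V W : Type) [Group K] [MulAction K V] (T : SimpleGraph V)
  (F : Set (ℤ → V)) (q : V → W) (τ : V → ZMod 3), Dat K T F q τ →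
    ∃ Γ : SimpleGraph V, Γ.IsTree ∧ Γ ≤ T ∧ ∀ (k : K) (u v : V), Γ.Adj u v → Γ.Adj (k • u) (k • v)

/-- actions with finitely many orbits of edges and triangles, with types, and with a homomorphism `f`
to the integers which is injective on the stabilizers of the vertices -/
structure Cc (H : Type) [Group H] {V : Type} [MulAction H V] (T : SimpleGraph V)
    (F : Set (ℤ → V)) (f : H →* Multiplicative ℤ) (τ : V → ZMod 3) : Prop where
  tri : Tri T F
  sc : SC T F
  ac : Ac H T F
  inj : ∀ (h : H) (x : V), h • x = x → f h = 1 → h = 1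
  fe : ∃ E : Set (V × V), E.Finite ∧ ∀ x y, T.Adj x y → ∃ g : H, (g • x, g • y) ∈ E
  ff : ∃ P : Set (ℤ → V), P.Finite ∧ ∀ φ ∈ F, ∃ g : H, (fun i => g • φ i) ∈ P
  ty : ∀ (h : H) (x : V), τ (h • x) = τ x
  tn : ∀ x y, T.Adj x y → τ x ≠ τ y

/-- elements with divisible values move neighbours of a vertex well -/
def Gd (H : Type) [Group H] {V : Type} [MulAction H V] (T : SimpleGraph V)
    (f : H →* Multiplicative ℤ) : Prop :=
  ∃ m : ℕ, 0 < m ∧ ∀ k : H, (m : ℤ) ∣ vl f k →
    ∀ x y, T.Adj x y → T.Adj x (k • y) → k • x = x ∨ k • y = y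

/-- NUM1: the fixed edges. Copy of `SQ/Num.lean`, `Cc0.ex1` -/
def S_NUM1 : Prop := ∀ (H V : Type) [Group H] [MulAction H V] (T : SimpleGraph V)
  (F : Set (ℤ → V)) (f : H →* Multiplicative ℤ) (τ : V → ZMod 3), Cc H T F f τ →
    ∃ m : ℕ, 0 < m ∧ ∀ x y, T.Adj x y → (∃ g : H, g ≠ 1 ∧ g • x = x ∧ g • y = y) →
      ∀ h : H, h • x = x → (m : ℤ) ∣ vl f h → h • y = y

/-- NUM2: walks `a, b, ..., k • a` (of length `r ≤ 5`) and `b, a, k • b` in the link of `x` with `k • x = x`
and such that the stabilizers of the edges from `x` to the vertices of the walk are trivial have `k`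
of bounded value. Here a walk of length `r` is a list `l` of `r` vertices. Copy of `SQ/Num.lean`:
`fin_z`, `Cc0.fin_face`, `Cc0.bdd`, `Cc0.ex2`, `Cc0.ex4`; finiteness by induction on the length. -/
def S_NUM2 : Prop := ∀ (H V : Type) [Group H] [MulAction H V] (T : SimpleGraph V)
  (F : Set (ℤ → V)) (f : H →* Multiplicative ℤ) (τ : V → ZMod 3), Cc H T F f τ →
    ∃ B : ℕ, ∀ (k : H) (x a : V) (l : List V), l.length ≤ 5 → k • x = x →
      List.IsChain (fun u v => Tg F x u v) (a :: l) → (a :: l).getLast? = some (k • a) →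
      (∀ u ∈ a :: l, T.Adj x u ∧ ∀ g : H, g • x = x → g • u = u → g = 1) → (vl f k).natAbs ≤ B

/-- SUB: the subdivision of each triangle into four triangles (new vertices: the midpoints of the edges;
`τ' v = 2 τ v`, `τ' (midpoint of u v) = τ u + τ v`). In the subdivided complex `Gd` holds.
`Gd`: at an old vertex `v` the neighbours are midpoints of edges at `v`; if `m(v,w)` and
`k • m(v,w)` are adjacent to `v`, then `k • v = v` by types. At a midpoint `e = m(v,w)`: the neighbours `v`,
`w` are distinguished by types; if `m(v,u)` and `k • m(v,u)` are adjacent to `e` then (types) `k • v = v`, and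
`k • m(v,u) = m(v, k • u)` with triangles `v w u`, `v w (k • u)`; by NUM1 and NUM2 (list `[w, k • u]`, from
`a = u`) there is an exponent `m` such that `m ∣ vl f k` implies `k • w = w` or `k • u = u` (or `k = 1`), so
`k` fixes `m(v,w)` or `m(v,u)`. See `SQ/Sub.lean`, `SQ/SubSc.lean`, `SQ/SubAct.lean`, `SQ/SubCc.lean` for the case of squares. -/
def S_SUB : Prop := S_NUM1 → S_NUM2 → ∀ (H V : Type) [Group H] [MulAction H V]
  (T : SimpleGraph V)
  (F : Set (ℤ → V)) (f : H →* Multiplicative ℤ) (τ : V → ZMod 3), Cc H T F f τ →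
    ∃ (V' : Type) (_ : MulAction H V') (T' : SimpleGraph V') (F' : Set (ℤ → V'))
      (τ' : V' → ZMod 3), Cc H T' F' f τ' ∧ Gd H T' f

/-- NICE: the exponent. From NUM1, NUM2: a closed walk modulo `k` through a vertex `u` such that the edge
`{x, u}` has a nontrivial stabilizer can be rotated to a closed walk in the link (`k • u = u`);
otherwise `k = 1`. See `Cc0.exn` in `SQ/Num.lean` and `Cc0.dat` in `SQ/Coc.lean`. -/
def S_NICE : Prop := S_NUM1 → S_NUM2 → ∀ (H V : Type) [Group H] [MulAction H V]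
  (T : SimpleGraph V)
  (F : Set (ℤ → V)) (f : H →* Multiplicative ℤ) (τ : V → ZMod 3), Cc H T F f τ → Gd H T f →
    ∃ n : ℕ, 0 < n ∧ Nic (Kn V f n) T F ∧ ∀ x y, T.Adj x y →
      (∃ g : H, g ≠ 1 ∧ g • x = x ∧ g • y = y) → ∀ h : H, h • x = x → (n : ℤ) ∣ vl f h → h • y = y

end Run7.h909.T3
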