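import Pool.Agent.Run7.h909.T3.Cover
import Pool.Agent.Run7.h909.T3.Stm

set_option autoImplicit false

/-!
# Distances in simply connected triangle complexes
-/

namespace Run7.h909.T3

open SimpleGraph Run7.h909.TD

section

variable {V : Type} {T : SimpleGraph V} {F : Set (ℤ → V)}

theorem per3 {φ : ℤ → V} (h : Per φ 3) {i j : ℤ} (hij : i % 3 = j % 3) : φ i = φ j :=
  (h i j).2 (by
    have : (3 : ℤ) ∣ i - j := by omega
    exact_mod_cast this)

theorem Tri.t_rot (h : Tri T F) {x y z : V} (ht : Tg F x y z) : Tg F y z x := by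
  obtain ⟨φ, hφ, rfl, rfl, rfl⟩ := ht
  refine ⟨_, h.shift φ hφ 1, ?_, ?_, ?_⟩
  · show φ (0 + 1) = _
    norm_num
  · show φ (1 + 1) = _
    norm_num
  · show φ (2 + 1) = _
    exact per3 (h.per φ hφ) (by norm_num)

theorem Tri.t_rev (h : Tri T F) {x y z : V} (ht : Tg F x y z) : Tg F z y x := by
  obtain ⟨φ, hφ, rfl, rfl, rfl⟩ := ht
  refine ⟨_, h.refl _ (h.shift φ hφ 2), ?_, ?_, ?_⟩
  · show φ (-0 + 2) = _
    norm_num
  · show φ (-1 + 2) = _
    norm_num
  · show φ (-2 + 2) = _
    norm_num

theorem Tri.t_adj (h : Tri T F) {x y z : V} (ht : Tg F x y z) : T.Adj x y := by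
  obtain ⟨φ, hφ, rfl, rfl, rfl⟩ := ht
  have := h.adj φ hφ 0
  rwa [zero_add] at this

/-- the triangles, for the theory of flips -/
def Tri.trs (h : Tri T F) : TrS V where
  tg := Tg F
  rot := h.t_rot
  rev := h.t_rev
  ne := fun ht => (h.t_adj ht).ne
  g3 := fun a b c => h.g3 _ _ _ _ a b c
  g4 := fun a b c d => h.g4 _ _ _ _ _ a b c d
  g5 := fun a b c d e => h.g5 _ _ _ _ _ _ a b c d e

theorem wrap3 {L : Type} [Group L] (c : V → V → L) (φ : ℤ → V) :
    wrap c φ 3 = c (φ 0) (φ 1) * c (φ 1) (φ 2) * c (φ 2) (φ 3) := by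
  unfold wrap
  simp [List.range_succ, mul_assoc]

/-- the paths ending at `x` -/
abbrev Fb (S : TrS V) (x : V) : Type := {c : Om S // c.fin = x}

theorem step_back {S : TrS V} {c : Om S} {x : V} (h : c.fin = x) (y : V) :
    (c.step y).step x = c := by
  subst h
  exact step_step y c

/-- a step is a bijection -/
noncomputable def stE (S : TrS V) (x y : V) : Fb S x ≃ Fb S y where
  toFun c := ⟨c.1.step y, fin_step y c.1⟩
  invFun c := ⟨c.1.step x, fin_step x c.1⟩
  left_inv c := Subtype.ext (step_back c.2 y)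
  right_inv c := Subtype.ext (step_back c.2 x)

/-- sections of the cover -/
theorem exists_section (h : Tri T F) (hs : SC T F) (c0 : Om h.trs) :
    ∃ s : V → Om h.trs, s c0.fin = c0 ∧ (∀ x, (s x).fin = x) ∧
      ∀ x y, T.Adj x y → (s x).step y = s y := by
  classical
  obtain ⟨o⟩ := hs.1.nonempty
  have hne : ∀ v : V, Nonempty (Fb h.trs v ≃ Fb h.trs o) := fun v => ⟨stE h.trs v o⟩
  let t : ∀ v : V, Fb h.trs v ≃ Fb h.trs o := fun v => Classical.choice (hne v)
  let P : V → V → Equiv.Perm (Fb h.trs o) := fun x y =>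
    ((t x).symm.trans (stE h.trs x y)).trans (t y)
  have hP : ∀ x y p, P x y p = t y (stE h.trs x y ((t x).symm p)) := fun x y p => rfl
  have hcoc : Coc T F (fun x y => (P x y)⁻¹) := by
    constructor
    · intro x y _
      rw [← mul_inv_rev, inv_eq_one]
      ext1 p
      rw [Equiv.Perm.mul_apply, hP, hP, Equiv.symm_apply_apply, Equiv.Perm.one_apply]
      have : stE h.trs y x (stE h.trs x y ((t x).symm p)) = (t x).symm p :=
        (stE h.trs x y).left_inv _
      rw [this, Equiv.apply_symm_apply]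
    · intro φ hφ n hn
      have hn3 : n = 3 := hn.unique (h.per φ hφ)
      subst hn3
      have e3 : φ 3 = φ 0 := per3 (h.per φ hφ) (by norm_num)
      rw [wrap3, e3, ← mul_inv_rev, ← mul_inv_rev, inv_eq_one]
      ext1 p
      rw [Equiv.Perm.mul_apply, Equiv.Perm.mul_apply, hP, hP, hP,
        Equiv.symm_apply_apply, Equiv.symm_apply_apply, Equiv.Perm.one_apply]
      set q := (t (φ 0)).symm p with hq
      have e1 : stE h.trs (φ 2) (φ 0) (stE h.trs (φ 1) (φ 2)
          (stE h.trs (φ 0) (φ 1) q)) = q := by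
        refine Subtype.ext ?_
        show ((q.1.step (φ 1)).step (φ 2)).step (φ 0) = q.1
        have htg : h.trs.tg q.1.fin (φ 1) (φ 2) := by
          rw [q.2]
          exact ⟨φ, hφ, rfl, rfl, rfl⟩
        rw [step_tri q.1 htg]
        exact step_back q.2 (φ 2)
      rw [e1, hq, Equiv.apply_symm_apply]
  obtain ⟨f, hf⟩ := hs.2 _ _ hcoc
  obtain ⟨p, hp⟩ : ∃ p, p = f c0.fin (t c0.fin ⟨c0, rfl⟩) := ⟨_, rfl⟩
  refine ⟨fun x => ((t x).symm ((f x)⁻¹ p)).1, ?_, fun x => ((t x).symm ((f x)⁻¹ p)).2, ?_⟩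
  · show ((t c0.fin).symm ((f c0.fin)⁻¹ p)).1 = c0
    rw [hp, ← Equiv.Perm.mul_apply, inv_mul_cancel, Equiv.Perm.one_apply, Equiv.symm_apply_apply]
  · intro x y hxy
    have h1 := hf x y hxy
    have h2 : P x y = (f y)⁻¹ * f x := by
      have h3 : P x y = ((P x y)⁻¹)⁻¹ := (inv_inv _).symm
      rw [h3]
      have h4 : (P x y)⁻¹ = (f x)⁻¹ * f y := h1
      rw [h4, mul_inv_rev, inv_inv]
    have h5 : P x y ((f x)⁻¹ p) = (f y)⁻¹ p := by
      rw [h2, Equiv.Perm.mul_apply, ← Equiv.Perm.mul_apply (f x), mul_inv_cancel,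
        Equiv.Perm.one_apply]
    rw [hP] at h5
    have h6 : stE h.trs x y ((t x).symm ((f x)⁻¹ p)) = (t y).symm ((f y)⁻¹ p) := by
      rw [← h5, Equiv.symm_apply_apply]
    exact congrArg Subtype.val h6

theorem red_one (S : TrS V) (x : V) : Red S [x] := by
  intro Q hQ hb
  have h := hQ.length
  cases hb with
  | here _ => simp at h
  | tail hb =>
    cases hb with
    | here _ => simp at h
    | tail _ => simp at h

/-- good paths -/
def Gp (T : SimpleGraph V) (o : V) (P : List V) : Prop :=
  List.IsChain T.Adj P ∧ P.getLast? = some o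

theorem chain_flip (h : Tri T F) {P Q : List V} (hf : Flip h.trs P Q)
    (hP : List.IsChain T.Adj P) : List.IsChain T.Adj Q := by
  induction hf with
  | @here x y w z L hs =>
    rw [List.isChain_cons_cons] at hP ⊢
    obtain ⟨-, h2⟩ := hP
    rw [List.isChain_cons_cons] at h2 ⊢
    exact ⟨(h.t_adj (h.t_rot (h.t_rev hs.1))).symm |> fun _ => by
      have := h.t_adj (h.t_rot (h.t_rot hs.1))
      exact this.symm, by
      have := h.t_adj (h.t_rot hs.2.1)
      exact this, h2.2⟩
  | @tail x L L' hf ih =>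
    have h1 := hf.head
    cases L with
    | nil => exact absurd rfl hf.ne_nil
    | cons a L =>
      cases L' with
      | nil => exact absurd rfl hf.symm.ne_nil
      | cons b L' =>
        simp at h1
        subst h1
        rw [List.isChain_cons_cons] at hP ⊢
        exact ⟨hP.1, ih hP.2⟩

theorem Gp.eqv (h : Tri T F) {o : V} {P Q : List V} (hP : Gp T o P) (he : Eqv h.trs P Q) :
    Gp T o Q := by
  refine ⟨?_, by rw [← he.last]; exact hP.2⟩
  induction he with
  | refl => exact hP.1
  | tail _ h2 ih => exact chain_flip h h2 ih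

/-- all classes of the section consist of paths to `o` -/
def Go (T : SimpleGraph V) {S : TrS V} (o : V) (c : Om S) : Prop :=
  ∃ P h, c = Om.mk P h ∧ Gp T o P

theorem Go.all (h : Tri T F) {o : V} {c : Om h.trs} (hc : Go T o c) {Q : List V} {hQ}
    (hcQ : c = Om.mk Q hQ) : Gp T o Q := by
  obtain ⟨P, hP, h1, h2⟩ := hc
  exact h2.eqv h (Om.exact (h1.symm.trans hcQ))

theorem Go.step (h : Tri T F) {o : V} {c : Om h.trs} (hc : Go T o c) {x : V}
    (hx : T.Adj c.fin x) : Go T o (c.step x) := by
  rcases three x c with ⟨R, h1, h2⟩ | ⟨hd, z, R, h1, h2, ht⟩ | ⟨hd, P, h1, h2, hr⟩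
  · obtain ⟨a, b⟩ := hc.all h h2
    refine ⟨_, _, val_D h2, ?_, ?_⟩
    · exact (List.isChain_cons_cons.1 a).2
    · rwa [List.getLast?_cons_cons] at b
  · obtain ⟨a, b⟩ := hc.all h h2
    refine ⟨_, _, val_H h2 hd ht, ?_, ?_⟩
    · rw [List.isChain_cons_cons] at a ⊢
      exact ⟨(h.t_adj (h.t_rot (h.t_rot ht))).symm, a.2⟩
    · rw [List.getLast?_cons_cons] at b ⊢
      exact b
  · obtain ⟨a, b⟩ := hc.all h h2
    refine ⟨_, _, val_U h2 hr, ?_, ?_⟩
    · rw [List.isChain_cons_cons]
      exact ⟨hx.symm, a⟩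
    · rw [List.getLast?_cons_cons]
      exact b

/-- **PATH** -/
theorem t_PATH : S_PATH := by
  intro V T F h hs o
  obtain ⟨s, h0, h1, h2⟩ := exists_section h hs (Om.mk [o] ⟨red_one _ o, by simp⟩)
  have h0' : s o = Om.mk [o] ⟨red_one _ o, by simp⟩ := h0
  have hgo : ∀ x, Go T o (s x) := by
    intro x
    have hr := hs.1.preconnected o x
    rw [reachable_iff_reflTransGen] at hr
    induction hr with
    | refl => exact ⟨_, _, h0', List.isChain_singleton o, rfl⟩
    | @tail b d _ hbd ih =>
      rw [← h2 b d hbd]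
      exact ih.step h (by rw [h1]; exact hbd)
  -- the three cases for an edge
  have key : ∀ x y, T.Adj x y →
      (∃ R h', s x = Om.mk (x :: y :: R) h' ∧ (s y).len + 1 = (s x).len) ∨
      ((s y).len = (s x).len ∧ ∃ z, Tg F x y z ∧ (s z).len + 1 = (s x).len) ∨
      (s y).len = (s x).len + 1 := by
    intro x y hxy
    have e := h2 x y hxy
    rcases three y (s x) with ⟨R, h3, h4⟩ | ⟨hd, z, R, h3, h4, ht⟩ | ⟨hd, P, h3, h4, hr⟩
    · left
      have e1 := val_D h4
      rw [e] at e1
      have l1 : (s x).len = ((s x).fin :: y :: R).length := by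
        conv_lhs => rw [h4]
        rfl
      refine ⟨R, by rw [← h1 x]; exact h3, ?_, ?_⟩
      · have h5 := h4
        simp only [h1] at h5
        exact h5
      · rw [e1, Om.len_mk, l1]
        simp
    · right; left
      have e1 := val_H h4 hd ht
      rw [e] at e1
      have l1 : (s x).len = ((s x).fin :: z :: R).length := by
        conv_lhs => rw [h4]
        rfl
      rw [h1] at ht
      have ht' : Tg F y x z := ht
      have hxz : T.Adj x z := (h.t_adj (h.t_rot ht'))
      have e2 : s z = Om.mk (z :: R) ⟨h3.1.tail, by simp⟩ := by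
        rw [← h2 x z hxz]
        exact val_D h4
      refine ⟨?_, z, h.t_rot (h.t_rev ht'), ?_⟩
      · rw [e1, Om.len_mk, l1]
        simp
      · rw [e2, Om.len_mk, l1]
        simp
    · right; right
      have e1 := val_U h4 hr
      rw [e] at e1
      have l1 : (s x).len = ((s x).fin :: P).length := by
        conv_lhs => rw [h4]
        rfl
      rw [e1, Om.len_mk, l1]
      simp
  have hpos : ∀ x, 1 ≤ (s x).len := by
    intro x
    obtain ⟨P, h3, h4, h5⟩ := hgo x
    rw [h4, Om.len_mk]
    exact List.length_pos_iff.2 h3.2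
  refine ⟨fun x => (s x).len - 1, ?_, ?_, ?_, ?_, ?_⟩
  · intro x
    constructor
    · intro hx
      have hx1 : (s x).len - 1 = 0 := hx
      obtain ⟨P, h3, h4, h5⟩ := hgo x
      have h6 := hpos x
      have h7 : P.length = 1 := by
        have h8 : (s x).len = P.length := by rw [h4, Om.len_mk]
        omega
      obtain ⟨a, rfl⟩ := List.length_eq_one_iff.1 h7
      have h9 : a = x := by
        rw [← h1 x, h4]
        rfl
      have h10 : a = o := by
        have := h5.2
        simpa using this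
      exact h9.symm.trans h10
    · rintro rfl
      show (s x).len - 1 = 0
      rw [h0', Om.len_mk]
      rfl
  · intro x y hxy
    show (s x).len - 1 ≤ (s y).len - 1 + 1
    have h6 := hpos y
    rcases key x y hxy with ⟨_, _, _, h7⟩ | ⟨h7, -⟩ | h7 <;> omega
  · intro x hx
    have hx1 : (s x).len - 1 ≠ 0 := hx
    obtain ⟨P, h3, h4, h5⟩ := hgo x
    have h8 : (s x).len = P.length := by rw [h4, Om.len_mk]
    cases P with
    | nil => exact absurd rfl h3.2
    | cons a P =>
      cases P with
      | nil =>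
        simp at h8
        omega
      | cons b R =>
        have h9 : a = x := by
          rw [← h1 x, h4]
          rfl
        subst h9
        have h10 : T.Adj a b := (List.isChain_cons_cons.1 h5.1).1
        refine ⟨b, h10, ?_⟩
        have h11 : s b = Om.mk (b :: R) ⟨h3.1.tail, by simp⟩ := by
          rw [← h2 a b h10, h4]
          exact step_desc h3
        show (s b).len - 1 + 1 = (s a).len - 1
        rw [h11, Om.len_mk, h8]
        simp
  · intro x y hxy hl
    have hl' : (s x).len - 1 = (s y).len - 1 := hl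
    have h6 := hpos y
    have h6' := hpos x
    rcases key x y hxy with ⟨_, _, _, h7⟩ | ⟨h7, z, h8, h9⟩ | h7
    · omega
    · refine ⟨z, h8, ?_⟩
      show (s z).len - 1 + 1 = (s x).len - 1
      have := hpos z
      omega
    · omega
  · intro x a b hxa hxb ha hb hab
    have ha' : (s a).len - 1 + 1 = (s x).len - 1 := ha
    have hb' : (s b).len - 1 + 1 = (s x).len - 1 := hb
    have h6 := hpos a
    have h6' := hpos b
    rcases key x a hxa with ⟨R, h3, h4, h7⟩ | ⟨h7, -⟩ | h7
    · rcases key x b hxb with ⟨R', h3', h4', h7'⟩ | ⟨h7', -⟩ | h7'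
      · rcases rho_heads (Om.exact (h4.symm.trans h4')) with ⟨h8, -⟩ | ⟨w, R1, h8, -, -⟩
        · exact absurd h8 hab
        · exact h8.1
      · omega
      · omega
    · omega
    · omega

end

end Run7.h909.T3
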