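import Pool.Agent.Run7.h909.T3.Lvl

set_option autoImplicit false

/-!
# An invariant tree in a triangle complex
-/

namespace Run7.h909.T3

open SimpleGraph Run7.h909.TD
open Run7.h909.TT (tree_of_coc)

section

variable (K : Type) [Group K] {V : Type} [MulAction K V] (T : SimpleGraph V)
    (F : Set (ℤ → V)) (τ : V → ZMod 3) (L : V → ℕ)

/-- edges with nontrivial stabilizers -/
def Sg (x y : V) : Prop := T.Adj x y ∧ ∃ k : K, k ≠ 1 ∧ k • x = x ∧ k • y = y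

/-- singular lower neighbours -/
def Sl (x y : V) : Prop := Lw T L x y ∧ Sg K T x y

/-- horizontal parents -/
def Hp (x y : V) : Prop := (∀ z, ¬ Sl K T L x z) ∧ Sg K T x y ∧ Hd T τ L x y

/-- parents -/
def Par (x y : V) : Prop :=
  (Sl K T L x y ∧ (τ y = τ x + 1 ∨ ∀ z, Sl K T L x z → τ z ≠ τ x + 1)) ∨ Hp K T τ L x y ∨
    ((∀ z, ¬ Sl K T L x z) ∧ (∀ z, ¬ Hp K T τ L x z) ∧ Lw T L x y ∧
      (τ y = τ x + 1 ∨ ∀ z, Lw T L x z → τ z ≠ τ x + 1))

/-- the step of the recursion for the extension of a cocycle -/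
noncomputable def Phi {G : Type} [Group G] (c E : V → V → G) (x b : V) : G := by
  classical
  exact if Par K T τ L x b then c x b else
    if h : ∃ y, Hp K T τ L x y ∧ Tg F x y b then c x h.choose * E h.choose b else
    if h : ∃ p : V × V, Par K T τ L x p.1 ∧ Lw T L x p.1 ∧ Lw T L x b ∧ Tg F x p.1 b ∧
      Tg F p.1 b p.2 ∧ L p.2 + 1 = L b then
      c x h.choose.1 * (E h.choose.1 h.choose.2 * (E b h.choose.2)⁻¹) else
    if h : ∃ p : V × V × V, Hp K T τ L x p.1 ∧ Tg F x p.1 p.2.1 ∧ Lw T L x p.2.1 ∧ Lw T L x b ∧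
      Tg F x p.2.1 b ∧ Tg F p.2.1 b p.2.2 ∧ L p.2.2 + 1 = L b then
      c x h.choose.1 * E h.choose.1 h.choose.2.1 *
        (E h.choose.2.1 h.choose.2.2 * (E b h.choose.2.2)⁻¹) else 1

end

section

variable {K : Type} [Group K] {V : Type} [MulAction K V] {T : SimpleGraph V}
    {F : Set (ℤ → V)} {τ : V → ZMod 3} {L : V → ℕ}

theorem Nd.act (N : Nd K T F τ L) (k : K) {x y z : V} (h : Tg F x y z) :
    Tg F (k • x) (k • y) (k • z) := by
  obtain ⟨φ, hφ, rfl, rfl, rfl⟩ := h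
  exact ⟨_, N.ac.face k φ hφ, rfl, rfl, rfl⟩

theorem Nd.cvx (N : Nd K T F τ L) {x a b z : V} (h1 : Sg K T x a) (h2 : Sg K T x b)
    (t1 : Tg F x a z) (t2 : Tg F x b z) (hne : a ≠ b) : Sg K T x z := by
  obtain ⟨h1, k, hk, hx, ha⟩ := h1
  have hb := N.fx x b h2.1 h2.2 k hx
  have t3 := N.act k t1
  have t4 := N.act k t2
  rw [hx, ha] at t3
  rw [hx, hb] at t4
  rcases N.tri.g4 x a z b (k • z) t1 (N.tri.t_sw t2) t4 (N.tri.t_sw t3) with h | h
  · exact absurd h hne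
  · exact ⟨N.tri.t_adj2 t1, k, hk, hx, h.symm⟩

theorem Nd.uHp (N : Nd K T F τ L) {x y y' : V} (h1 : Hp K T τ L x y) (h2 : Hp K T τ L x y') :
    y = y' := by
  obtain ⟨hn, s1, a1, l1, c1⟩ := h1
  obtain ⟨-, s2, a2, l2, c2⟩ := h2
  obtain ⟨z, hz, hz'⟩ := N.hor x y a1 l1.symm
  obtain ⟨w, hw, hw'⟩ := N.hor x y' a2 l2.symm
  have tz : τ z = τ x + 1 := z3a _ _ _ (N.tn _ _ a1) (N.tn _ _ (N.tri.t_adj2 hz))
      (N.tn _ _ (N.tri.t_adj3 hz)) c1
  have tw : τ w = τ x + 1 := z3a _ _ _ (N.tn _ _ a2) (N.tn _ _ (N.tri.t_adj2 hw))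
      (N.tn _ _ (N.tri.t_adj3 hw)) c2
  obtain ⟨k, hk, hkz⟩ := N.low1 x z w ⟨N.tri.t_adj2 hz, hz'⟩ ⟨N.tri.t_adj2 hw, hw'⟩ (tz.trans tw.symm)
  have hky := N.fx x y s1.1 s1.2 k hk
  have t3 := N.act k hz
  rw [hk, hky, hkz] at t3
  by_contra hne
  exact hn w ⟨⟨N.tri.t_adj2 hw, hw'⟩, N.cvx s1 s2 t3 hw hne⟩

/-- lower neighbours with a common neighbour are equal -/
theorem Nd.uq (N : Nd K T F τ L) {x a a' b : V} (h1 : Lw T L x a) (h2 : Lw T L x a')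
    (h3 : Lw T L x b) (t1 : Tg F x a b) (t2 : Tg F x a' b)
    (hs : (∀ z, ¬ Sl K T L x z) ∨ Sl K T L x a) : a = a' := by
  have ht : τ a = τ a' := z3b (τ x) (τ a) (τ b) (τ a') (N.tn _ _ h1.1) (N.tn _ _ h3.1)
    (N.tn _ _ (N.tri.t_adj3 t1)) (N.tn _ _ h2.1) (N.tn _ _ (N.tri.t_adj3 t2)).symm
  obtain ⟨k, hk, hka⟩ := N.low1 x a a' h1 h2 ht
  rcases hs with hs | hs
  · rcases N.cor k x b a (N.tri.t_sw t1) (by rw [hka]; exact N.tri.t_sw t2) hk with h | h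
    · by_cases hk1 : k = 1
      · rw [← hka, hk1, one_smul]
      · exact absurd ⟨h3, h3.1, k, hk1, hk, h⟩ (hs b)
    · rw [← hka, h]
  · rw [← hka, N.fx x a hs.2.1 hs.2.2 k hk]

theorem Nd.par_lw {x a : V} (h : Par K T τ L x a) (h' : Lw T L x a) :
    (Sl K T L x a ∧ (τ a = τ x + 1 ∨ ∀ z, Sl K T L x z → τ z ≠ τ x + 1)) ∨
    ((∀ z, ¬ Sl K T L x z) ∧ (∀ z, ¬ Hp K T τ L x z) ∧
      (τ a = τ x + 1 ∨ ∀ z, Lw T L x z → τ z ≠ τ x + 1)) := by
  rcases h with h | h | h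
  · exact Or.inl h
  · exfalso
    have h1 := h.2.2.2.1
    have h2 := h'.2
    omega
  · exact Or.inr ⟨h.1, h.2.1, h.2.2.2⟩

theorem Nd.par_s {x a : V} (h : Par K T τ L x a) (h' : Lw T L x a) :
    (∀ z, ¬ Sl K T L x z) ∨ Sl K T L x a := by
  rcases Nd.par_lw h h' with h | h
  · exact Or.inr h.1
  · exact Or.inl h.1

theorem Nd.par_h {x a : V} (h : Par K T τ L x a) (h' : Lw T L x a) (z : V) :
    ¬ Hp K T τ L x z := by
  rcases Nd.par_lw h h' with h | h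
  · exact fun hz => hz.1 a h.1
  · exact h.2.1 z

theorem Nd.npar (N : Nd K T F τ L) {x a b : V} (h : Par K T τ L x a) (h1 : Lw T L x a)
    (h2 : Lw T L x b) (t : Tg F x a b) : ¬ Par K T τ L x b := by
  intro h'
  have e1 := N.tn _ _ h1.1
  have e2 := N.tn _ _ h2.1
  have e3 := N.tn _ _ (N.tri.t_adj3 t)
  rcases Nd.par_lw h h1 with h | h <;> rcases Nd.par_lw h' h2 with h' | h'
  · rcases h.2 with h3 | h3
    · rcases h'.2 with h4 | h4
      · exact e3 (h3.trans h4.symm)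
      · exact h4 a h.1 h3
    · exact h3 b h'.1 (z3d _ _ _ e1 e2 e3 (h3 a h.1))
  · exact h'.1 a h.1
  · exact h.1 b h'.1
  · rcases h.2.2 with h3 | h3
    · rcases h'.2.2 with h4 | h4
      · exact e3 (h3.trans h4.symm)
      · exact h4 a h1 h3
    · exact h3 b h2 (z3d _ _ _ e1 e2 e3 (h3 a h1))

theorem Nd.nparH (N : Nd K T F τ L) {x y b : V} (h : Hp K T τ L x y) (h2 : Lw T L x b) :
    ¬ Par K T τ L x b := fun h' => Nd.par_h h' h2 y h

/-- the four cases for a lower neighbour -/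
theorem Nd.cases (N : Nd K T F τ L) {x b : V} (hb : Lw T L x b) : Par K T τ L x b ∨
    (∃ a, Par K T τ L x a ∧ Lw T L x a ∧ Tg F x a b) ∨
    (∃ y, Hp K T τ L x y ∧ Tg F x y b) ∨
    (∃ y a, Hp K T τ L x y ∧ Tg F x y a ∧ Lw T L x a ∧ Tg F x a b) := by
  by_cases h1 : ∃ z, Sl K T L x z
  · have hp : ∃ a, Sl K T L x a ∧ (τ a = τ x + 1 ∨ ∀ z, Sl K T L x z → τ z ≠ τ x + 1) := by
      by_cases h2 : ∃ z, Sl K T L x z ∧ τ z = τ x + 1
      · obtain ⟨z, h3, h4⟩ := h2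
        exact ⟨z, h3, Or.inl h4⟩
      · obtain ⟨z, hz⟩ := h1
        exact ⟨z, hz, Or.inr fun w hw hw' => h2 ⟨w, hw, hw'⟩⟩
    obtain ⟨a, ha⟩ := hp
    have hpa : Par K T τ L x a := Or.inl ha
    by_cases ht : τ a = τ b
    · obtain ⟨k, hk, hka⟩ := N.low1 x a b ha.1.1 hb ht
      left
      rw [← hka, N.fx x a ha.1.2.1 ha.1.2.2 k hk]
      exact hpa
    · obtain ⟨k, hk, hka⟩ := N.low2 x b a hb ha.1.1 (Ne.symm ht)
      rw [N.fx x a ha.1.2.1 ha.1.2.2 k hk] at hka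
      exact Or.inr (Or.inl ⟨a, hpa, ha.1.1, N.tri.t_sw hka⟩)
  · have h1' : ∀ z, ¬ Sl K T L x z := fun z hz => h1 ⟨z, hz⟩
    by_cases h2 : ∃ y, Hp K T τ L x y
    · obtain ⟨y, hy⟩ := h2
      obtain ⟨b0, hb0, hb0'⟩ := N.hor x y hy.2.2.1 hy.2.2.2.1.symm
      have hl : Lw T L x b0 := ⟨N.tri.t_adj2 hb0, hb0'⟩
      by_cases ht : τ b0 = τ b
      · obtain ⟨k, hk, hkb⟩ := N.low1 x b0 b hl hb ht
        have t := N.act k hb0
        rw [hk, hkb, N.fx x y hy.2.1.1 hy.2.1.2 k hk] at t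
        exact Or.inr (Or.inr (Or.inl ⟨y, hy, t⟩))
      · obtain ⟨k, hk, hkb⟩ := N.low2 x b b0 hb hl (Ne.symm ht)
        have t := N.act k hb0
        rw [hk, N.fx x y hy.2.1.1 hy.2.1.2 k hk] at t
        exact Or.inr (Or.inr (Or.inr ⟨y, k • b0, hy, t, ⟨N.tri.t_adj2 t, by rw [N.lk]; exact hl.2⟩,
          N.tri.t_sw hkb⟩))
    · have h2' : ∀ z, ¬ Hp K T τ L x z := fun z hz => h2 ⟨z, hz⟩
      by_cases h3 : τ b = τ x + 1
      · exact Or.inl (Or.inr (Or.inr ⟨h1', h2', hb, Or.inl h3⟩))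
      · by_cases h4 : ∃ z, Lw T L x z ∧ τ z = τ x + 1
        · obtain ⟨z, hz, hz'⟩ := h4
          obtain ⟨k, hk, hkz⟩ := N.low2 x b z hb hz (by rw [hz']; exact h3)
          have hl : Lw T L x (k • z) := ⟨N.tri.t_adj2 hkz, by rw [N.lk]; exact hz.2⟩
          exact Or.inr (Or.inl ⟨k • z, Or.inr (Or.inr ⟨h1', h2', hl, Or.inl (by rw [N.ty]; exact hz')⟩),
            hl, N.tri.t_sw hkz⟩)
        · exact Or.inl (Or.inr (Or.inr ⟨h1', h2', hb, Or.inr fun z hz hz' => h4 ⟨z, hz, hz'⟩⟩))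

theorem par_adj {x y : V} (h : Par K T τ L x y) : T.Adj x y := by
  rcases h with h | h | h
  · exact h.1.1.1
  · exact h.2.1.1
  · exact h.2.2.1.1

variable (K T τ L) in
/-- the tree -/
def Gm : SimpleGraph V := SimpleGraph.fromRel (Par K T τ L)

theorem gm_adj {x y : V} : (Gm K T τ L).Adj x y ↔ Par K T τ L x y ∨ Par K T τ L y x := by
  unfold Gm
  rw [SimpleGraph.fromRel_adj]
  constructor
  · exact fun h => h.2
  · rintro (h | h)
    · exact ⟨(par_adj h).ne, Or.inl h⟩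
    · exact ⟨(par_adj h).ne', Or.inr h⟩

theorem Nd.conn0 (N : Nd K T F τ L) : ∀ x b, Lw T L x b → (Gm K T τ L).Reachable x b := by
  intro x
  induction x using N.wf.induction with
  | _ x ih =>
    intro b hb
    have two : ∀ a : V, Lw T L x a → Tg F x a b → (Gm K T τ L).Reachable a b := by
      intro a ha t
      have h1 := ha.2
      have h2 := hb.2
      obtain ⟨z, hz, hz'⟩ := N.hor a b (N.tri.t_adj3 t) (by omega)
      have r1 := ih a (Or.inl (by omega)) z ⟨N.tri.t_adj2 hz, hz'⟩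
      have r2 := ih b (Or.inl (by omega)) z ⟨N.tri.t_adj3 hz, by omega⟩
      exact r1.trans r2.symm
    rcases N.cases hb with h | ⟨a, h1, h2, h3⟩ | ⟨y, h1, h2⟩ | ⟨y, a, h1, h2, h3, h4⟩
    · exact (gm_adj.2 (Or.inl h)).reachable
    · exact (gm_adj.2 (Or.inl h1)).reachable.trans (two a h2 h3)
    · have h3 := h1.2.2.2.1
      have h4 := hb.2
      exact (gm_adj.2 (Or.inl (Or.inr (Or.inl h1)))).reachable.trans
        (ih y (Or.inr h1.2.2) b ⟨N.tri.t_adj3 h2, by omega⟩)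
    · have h5 := h1.2.2.2.1
      have h6 := h3.2
      exact ((gm_adj.2 (Or.inl (Or.inr (Or.inl h1)))).reachable.trans
        (ih y (Or.inr h1.2.2) a ⟨N.tri.t_adj3 h2, by omega⟩)).trans (two a h3 h4)

theorem Nd.conn (N : Nd K T F τ L) (hT : T.Connected) : (Gm K T τ L).Connected := by
  have key : ∀ x y, T.Adj x y → (Gm K T τ L).Reachable x y := by
    intro x y h
    have h1 := N.step x y h
    have h2 := N.step y x h.symm
    rcases Nat.lt_trichotomy (L x) (L y) with h3 | h3 | h3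
    · exact (N.conn0 y x ⟨h.symm, by omega⟩).symm
    · obtain ⟨z, hz, hz'⟩ := N.hor x y h h3
      exact (N.conn0 x z ⟨N.tri.t_adj2 hz, hz'⟩).trans
        (N.conn0 y z ⟨N.tri.t_adj3 hz, by omega⟩).symm
    · exact N.conn0 x y ⟨h, by omega⟩
  obtain ⟨o⟩ := hT.nonempty
  have : Nonempty V := ⟨o⟩
  refine ⟨fun x y => ?_⟩
  have hr := hT.preconnected x y
  rw [reachable_iff_reflTransGen] at hr
  induction hr with
  | refl => exact Reachable.refl _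
  | tail _ hbc ih => exact ih.trans (key _ _ hbc)

end

end Run7.h909.T3
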